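import Pool.Agent.Lib.MP_b5021c_nt.IfaceE6Cr

/-!
# MP_b5021c_nt, row E6C_NUM: numbers, the linear slack for complex elements
-/

namespace Pool.Agent.B5.H02.Num6

open Pool.Agent.B5

theorem le_of_sqrt_three_pow (k : ℕ) (x : ℝ) (h : Real.sqrt 3 ^ k ≤ x) :
    (k : ℝ) ≤ 19 + x / 2952 := by
  have hs : Real.sqrt 3 ^ 20 = 59049 := by
    have h1 : Real.sqrt 3 ^ 20 = (Real.sqrt 3 ^ 2) ^ 10 := by rw [← pow_mul]
    rw [h1, Real.sq_sqrt (by norm_num)]
    norm_num
  have hs1 : 1 ≤ Real.sqrt 3 := by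
    rw [Real.one_le_sqrt]
    norm_num
  set n := k / 20 with hn
  have hk : k ≤ 20 * n + 19 := by omega
  have hk2 : 20 * n ≤ k := by omega
  have h2 : (1 : ℝ) + (n : ℝ) * 59048 ≤ (1 + 59048) ^ n := one_add_mul_le_pow (by norm_num) n
  have h3 : Real.sqrt 3 ^ (20 * n) ≤ Real.sqrt 3 ^ k := pow_le_pow_right₀ hs1 hk2
  rw [pow_mul, hs] at h3
  have h4 : (1 + 59048 : ℝ) = 59049 := by norm_num
  rw [h4] at h2
  have h5 : (k : ℝ) ≤ 20 * n + 19 := by exact_mod_cast hk
  have h6 : (1 : ℝ) + n * 59048 ≤ x := le_trans h2 (le_trans h3 h)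
  have h7 : (20 : ℝ) * n ≤ x / 2952 := by
    rw [le_div_iff₀ (by norm_num)]
    have h8 : (0 : ℝ) ≤ n := Nat.cast_nonneg n
    nlinarith
  linarith

theorem bV3_le (x : ℝ) (hx : Real.sqrt 3 ≤ x) : bV3 x ≤ 2 * x + 4800 := by
  have h1 : (1 : ℝ) ≤ Real.sqrt 3 := by
    rw [Real.one_le_sqrt]
    norm_num
  have h2 : max 1 x = x := max_eq_right (h1.trans hx)
  have h3 : bV3 x ≤ 2 * max 1 x + 4800 := min_le_right _ _
  rw [h2] at h3
  exact h3

theorem num6 (hS : Su3S) : Num6S := by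
  intro θ m l g N hθ hm hN hP h1 hl hg
  have hs3 : (173 / 100 : ℝ) ≤ Real.sqrt 3 := by
    apply Real.le_sqrt_of_sq_le
    norm_num
  have hs3' : Real.sqrt 3 ≤ 1733 / 1000 := by
    rw [Real.sqrt_le_left (by norm_num)]
    norm_num
  have hss : Real.sqrt 3 * Real.sqrt 3 = 3 := Real.mul_self_sqrt (by norm_num)
  have hbig : (10 : ℝ) ^ 8 ≤ θ := by
    have h2 : Real.exp 400 = Real.exp 100 ^ 4 := by
      rw [← Real.exp_nat_mul]
      norm_num
    have h3 : (101 : ℝ) ≤ Real.exp 100 := by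
      have := Real.add_one_le_exp (100 : ℝ)
      linarith
    have h4 : (101 : ℝ) ^ 4 ≤ Real.exp 100 ^ 4 := pow_le_pow_left₀ (by norm_num) h3 4
    rw [← h2] at h4
    have h5 : (10 : ℝ) ^ 8 ≤ 101 ^ 4 := by norm_num
    linarith
  have hg2 : (g : ℝ) ≤ 19 + (θ + 1 / 2) / 2952 := by
    rcases hg with hg | hg
    · have h2 : (g : ℝ) ≤ 11 := by exact_mod_cast hg
      have h3 : 0 ≤ (θ + 1 / 2) / 2952 := by
        apply div_nonneg <;> linarith
      linarith
    · have h2 := le_of_sqrt_three_pow (g + 1) _ hg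
      push_cast at h2
      linarith
  have hl0 : (0 : ℝ) ≤ l := Nat.cast_nonneg l
  have hg0 : (0 : ℝ) ≤ g := Nat.cast_nonneg g
  obtain ⟨m, rfl⟩ := Nat.exists_eq_add_of_le' hm
  rcases Nat.eq_zero_or_pos m with hm0 | hm0
  · subst hm0
    have h2 := h1 rfl
    rw [Fin.prod_univ_one] at h2 hl
    rw [Fin.sum_univ_one]
    have h3 := hN 0
    have h4 := bV3_le (N 0) h3
    set x := N 0 with hx
    have hx0 : 0 < x := by linarith
    have h5 : (0 : ℝ) ≤ (54 / 100 * θ - g - 4802 - 2 * Real.sqrt 3) * x :=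
      mul_nonneg (by linarith) hx0.le
    have h6 : 0 ≤ (x - Real.sqrt 3) * (73 / 100 * θ - x) := mul_nonneg (by linarith) (by linarith)
    have h6b : 0 ≤ (Real.sqrt 3 - 173 / 100) * θ := mul_nonneg (by linarith) (by linarith)
    have h7 : (l : ℝ) * x ≤ (2 * θ - 4802 - g - 2 * x) * x := by nlinarith
    have h8 : (l : ℝ) ≤ 2 * θ - 4802 - g - 2 * x := le_of_mul_le_mul_right h7 hx0
    linarith
  · obtain ⟨m, rfl⟩ := Nat.exists_eq_add_of_le' hm0
    rw [Fin.prod_univ_succ] at hP hl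
    rw [Fin.sum_univ_succ]
    have h3 := hN 0
    have h4 := bV3_le (N 0) h3
    have h5 := hS (m + 1) (fun i => N i.succ) (by omega) (fun i => hN i.succ)
    have h6 : Real.sqrt 3 ≤ ∏ i : Fin (m + 1), N i.succ := by
      rw [Fin.prod_univ_succ]
      have h7 : (1 : ℝ) ≤ ∏ i : Fin m, N i.succ.succ := by
        have h70 : ∏ _i : Fin m, (1 : ℝ) ≤ ∏ i : Fin m, N i.succ.succ := by
          apply Finset.prod_le_prod
          · intro i _
            exact zero_le_one
          · intro i _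
            linarith [hN i.succ.succ]
        rwa [Finset.prod_const_one] at h70
      have h8 := hN (Fin.succ 0)
      calc Real.sqrt 3 ≤ N (Fin.succ 0) := h8
        _ = N (Fin.succ 0) * 1 := (mul_one _).symm
        _ ≤ _ := mul_le_mul_of_nonneg_left h7 (by linarith)
    have h7 := bV3_le _ h6
    set a := N 0 with ha
    set b := ∏ i : Fin (m + 1), N i.succ with hb
    push_cast at h5
    have hm1 : (0 : ℝ) ≤ m := Nat.cast_nonneg m
    have h8 : ∑ i : Fin (m + 1), bV3 (N i.succ) ≤ 2 * b + 4800 := by linarith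
    have h9 : 0 ≤ (a - Real.sqrt 3) * (b - Real.sqrt 3) := mul_nonneg (by linarith) (by linarith)
    have h10 : Real.sqrt 3 * (a + b) ≤ a * b + 3 := by nlinarith
    have hab : 0 ≤ a + b := by linarith
    have h11 : 173 / 100 * (a + b) ≤ a * b + 3 := by nlinarith
    have h12 : 2 * (a + b) ≤ 1157 / 1000 * (a * b + 3) := by
      have : 0 ≤ a * b := mul_nonneg (by linarith) (by linarith)
      linarith
    set p := a * b with hp
    have hp3 : 3 ≤ p := by
      have : Real.sqrt 3 * Real.sqrt 3 ≤ a * b :=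
        mul_le_mul h3 h6 (Real.sqrt_nonneg 3) (by linarith)
      rw [hp]
      linarith
    have h13 : 0 ≤ (p - 3) * (θ + 1 / 2 - p) := mul_nonneg (by linarith) (by linarith)
    have h14 : (0 : ℝ) ≤ (8 / 10 * θ - g - 9620) * p := mul_nonneg (by linarith) (by linarith)
    have h15 : (l : ℝ) * p ≤ (2 * θ - 9602 - g - 1157 / 1000 * (p + 3)) * p := by nlinarith
    have h16 : (l : ℝ) ≤ 2 * θ - 9602 - g - 1157 / 1000 * (p + 3) :=
      le_of_mul_le_mul_right h15 (by linarith)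
    linarith

end Pool.Agent.B5.H02.Num6
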