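import Pool.Agent.Lib.MP_b5021c_nt.IfaceE6

/-!
# MP_b5021c_nt, row E6_NUR: numbers, the linear slack for real elements
-/

namespace Pool.Agent.B5.H02

open Pool.Agent.B5

/-- The sum of numbers `≥ 2` is at most the product. -/
theorem sum_le_prod_of_two_le : ∀ (m : ℕ) (N : Fin (m + 1) → ℝ), (∀ i, 2 ≤ N i) →
    ∑ i, N i ≤ ∏ i, N i ∧ 2 ^ (m + 1) ≤ ∏ i, N i := by
  intro m
  induction m with
  | zero =>
    intro N hN
    rw [Fin.sum_univ_one, Fin.prod_univ_one]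
    exact ⟨le_refl _, by simpa using hN 0⟩
  | succ m ih =>
    intro N hN
    rw [Fin.sum_univ_succ, Fin.prod_univ_succ]
    obtain ⟨h1, h2⟩ := ih (fun i => N i.succ) (fun i => hN i.succ)
    have h0 := hN 0
    have h3 : (2 : ℝ) ≤ ∏ i : Fin (m + 1), N i.succ := by
      have h4 : (2 : ℝ) ^ 1 ≤ 2 ^ (m + 1) :=
        pow_le_pow_right₀ (by norm_num) (by omega)
      linarith
    refine ⟨?_, ?_⟩
    · nlinarith [mul_nonneg (sub_nonneg.mpr h0) (sub_nonneg.mpr h3)]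
    · have h5 : (2 : ℝ) ^ (m + 1 + 1) = 2 * 2 ^ (m + 1) := by ring
      rw [h5]
      exact mul_le_mul h0 h2 (by positivity) (by linarith)

/-- With at least two factors twice the sum is at most the product plus `4`. -/
theorem two_sum_le (m : ℕ) (N : Fin (m + 2) → ℝ) (hN : ∀ i, 2 ≤ N i) :
    2 * ∑ i, N i ≤ (∏ i, N i) + 4 := by
  rw [Fin.sum_univ_succ, Fin.prod_univ_succ]
  obtain ⟨h1, h2⟩ := sum_le_prod_of_two_le m (fun i => N i.succ) (fun i => hN i.succ)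
  have h0 := hN 0
  have h3 : (2 : ℝ) ≤ ∏ i : Fin (m + 1), N i.succ := by
    have h4 : (2 : ℝ) ^ 1 ≤ 2 ^ (m + 1) :=
      pow_le_pow_right₀ (by norm_num) (by omega)
    linarith
  nlinarith [mul_nonneg (sub_nonneg.mpr h0) (sub_nonneg.mpr h3)]

theorem le_of_two_pow (m : ℕ) (x : ℝ) (h : (2 : ℝ) ^ m ≤ x) : (m : ℝ) ≤ 19 + x / 1048576 := by
  rcases Nat.lt_or_ge m 20 with h1 | h1
  · have h2 : (m : ℝ) ≤ 19 := by exact_mod_cast (by omega : m ≤ 19)
    have h3 : 0 ≤ x := le_trans (by positivity) h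
    have h4 : 0 ≤ x / 1048576 := by positivity
    linarith
  · obtain ⟨k, rfl⟩ := Nat.exists_eq_add_of_le h1
    have h2 : (1 : ℝ) + (k : ℝ) * 1 ≤ (1 + 1) ^ k := one_add_mul_le_pow (by norm_num) k
    rw [pow_add] at h
    have h3 : (1 : ℝ) + (k : ℝ) ≤ 2 ^ k := by
      have h5 : (1 + 1 : ℝ) = 2 := by norm_num
      rw [h5, mul_one] at h2
      exact h2
    have h4 : (2 : ℝ) ^ 20 = 1048576 := by norm_num
    rw [h4] at h
    push_cast
    have h6 : (1 : ℝ) + k ≤ x / 1048576 := by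
      rw [le_div_iff₀ (by norm_num)]
      nlinarith
    linarith

theorem le_of_sqrt_three_pow (k : ℕ) (x : ℝ) (h : Real.sqrt 3 ^ k ≤ x) :
    (k : ℝ) ≤ 19 + x / 2952 := by
  have hs : Real.sqrt 3 ^ 20 = 59049 := by
    have h1 : Real.sqrt 3 ^ 20 = (Real.sqrt 3 ^ 2) ^ 10 := by rw [← pow_mul]
    rw [h1, Real.sq_sqrt (by norm_num)]
    norm_num
  have hs1 : 1 ≤ Real.sqrt 3 := by
    rw [Real.one_le_sqrt]
    norm_num
  set n := k / 20 with hn
  have hk : k ≤ 20 * n + 19 := by omega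
  have hk2 : 20 * n ≤ k := by omega
  have h2 : (1 : ℝ) + (n : ℝ) * 59048 ≤ (1 + 59048) ^ n := one_add_mul_le_pow (by norm_num) n
  have h3 : Real.sqrt 3 ^ (20 * n) ≤ Real.sqrt 3 ^ k := pow_le_pow_right₀ hs1 hk2
  rw [pow_mul, hs] at h3
  have h4 : (1 + 59048 : ℝ) = 59049 := by norm_num
  rw [h4] at h2
  have h5 : (k : ℝ) ≤ 20 * n + 19 := by exact_mod_cast hk
  have h6 : (1 : ℝ) + n * 59048 ≤ x := le_trans h2 (le_trans h3 h)
  have h7 : (20 : ℝ) * n ≤ x / 2952 := by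
    rw [le_div_iff₀ (by norm_num)]
    have h8 : (0 : ℝ) ≤ n := Nat.cast_nonneg n
    nlinarith
  linarith

theorem nur : NurS := by
  intro θ m l g N hθ hm hN hP h1 hl hg
  have hmax : ∀ i, max 1 (N i) = N i := fun i => max_eq_right (by linarith [hN i])
  have hsum : ∑ i, (2 * max 1 (N i) + 4800) = 2 * ∑ i, N i + 4800 * m := by
    rw [Finset.sum_add_distrib, Finset.sum_const, Finset.card_univ, Fintype.card_fin,
      nsmul_eq_mul, Finset.mul_sum]
    congr 1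
    · exact Finset.sum_congr rfl (fun i _ => by rw [hmax])
    · ring
  rw [hsum]
  have hg2 : (g : ℝ) ≤ 19 + (θ + 1 / 2) / 2952 := by
    rcases hg with hg | hg
    · have h2 : (g : ℝ) ≤ 11 := by exact_mod_cast hg
      have h3 : 0 ≤ (θ + 1 / 2) / 2952 := by
        apply div_nonneg <;> linarith
      linarith
    · have h2 := le_of_sqrt_three_pow (g + 1) _ hg
      push_cast at h2
      linarith
  have hl0 : (0 : ℝ) ≤ l := Nat.cast_nonneg l
  have hg0 : (0 : ℝ) ≤ g := Nat.cast_nonneg g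
  obtain ⟨m, rfl⟩ := Nat.exists_eq_add_of_le' hm
  rcases Nat.eq_zero_or_pos m with hm0 | hm0
  · subst hm0
    have h2 := h1 rfl
    rw [Fin.prod_univ_one] at h2 hl
    rw [Fin.sum_univ_one]
    have h3 := hN 0
    set x := N 0 with hx
    push_cast
    have hC : (g : ℝ) + 4807 ≤ 6 / 1000 * θ := by linarith
    have h4 : (0 : ℝ) ≤ (6 / 1000 * θ - g - 4807) * x :=
      mul_nonneg (by linarith) (by linarith)
    have h5 : 0 ≤ (x - 2) * (997 / 1000 * θ - x) := mul_nonneg (by linarith) (by linarith)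
    have h6 : (l : ℝ) * x ≤ (2 * θ - 4803 - g - 2 * x) * x := by nlinarith
    have h7 : (l : ℝ) ≤ 2 * θ - 4803 - g - 2 * x := le_of_mul_le_mul_right h6 (by linarith)
    linarith
  · obtain ⟨m, rfl⟩ := Nat.exists_eq_add_of_le' hm0
    have h2 := two_sum_le m N hN
    obtain ⟨-, h3⟩ := sum_le_prod_of_two_le (m + 1) N hN
    have h4 : (4 : ℝ) ≤ ∏ i, N i := by
      have h5 : (2 : ℝ) ^ 2 ≤ 2 ^ (m + 1 + 1) := pow_le_pow_right₀ (by norm_num) (by omega)
      linarith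
    have h5 := le_of_two_pow (m + 1 + 1) _ (h3.trans hP)
    have h6 : (l : ℝ) * 4 ≤ 2 * θ := (mul_le_mul_of_nonneg_left h4 hl0).trans hl
    push_cast at h5 ⊢
    linarith

end Pool.Agent.B5.H02
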