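import Pool.Agent.Lib.MP_b5021c_nt.E.H02.DtiE

/-!
# Board b5, row AM_DTI: an element of `DD` with the constant coefficient `Q + A`, rank `K - 2`
-/

set_option linter.unusedSectionVars false

namespace Pool.Agent.B5.H02

open scoped LaurentPolynomial
open AddMonoidAlgebra

/-- The marking by the ports of `phi` and two more ports. -/
def psi {P : Type} {L : Type} [AddCommGroup L] (phi : L →+ (P → ℤ)) :
    (L × ℤ) × ℤ →+ (Option (Option P) → ℤ) where
  toFun x := fun o => o.elim x.2 (fun o' => o'.elim (x.1.2 + x.2) (fun q => phi x.1.1 q + x.2))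
  map_zero' := by
    funext o
    rcases o with _ | _ | q <;> simp
  map_add' x y := by
    funext o
    rcases o with _ | _ | q
    · simp
    · simp only [Option.elim, Pi.add_apply, Prod.fst_add, Prod.snd_add]
      ring
    · simp only [Option.elim, Pi.add_apply, Prod.fst_add, Prod.snd_add, map_add]
      ring

theorem psi_none {P : Type} {L : Type} [AddCommGroup L] (phi : L →+ (P → ℤ)) (x : (L × ℤ) × ℤ) :
    psi phi x none = x.2 := rfl

theorem psi_some_none {P : Type} {L : Type} [AddCommGroup L] (phi : L →+ (P → ℤ))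
    (x : (L × ℤ) × ℤ) : psi phi x (some none) = x.1.2 + x.2 := rfl

theorem psi_some_some {P : Type} {L : Type} [AddCommGroup L] (phi : L →+ (P → ℤ))
    (x : (L × ℤ) × ℤ) (q : P) : psi phi x (some (some q)) = phi x.1.1 q + x.2 := rfl

theorem psi_inj {P : Type} {L : Type} [AddCommGroup L] (phi : L →+ (P → ℤ))
    (h : Function.Injective phi) : Function.Injective (psi phi) := by
  intro x y hxy
  have h1 : x.2 = y.2 := congrFun hxy none
  have h2 : x.1.2 + x.2 = y.1.2 + y.2 := congrFun hxy (some none)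
  have h3 : phi x.1.1 = phi y.1.1 := by
    funext q
    have h4 : phi x.1.1 q + x.2 = phi y.1.1 q + y.2 := congrFun hxy (some (some q))
    omega
  refine Prod.ext (Prod.ext (h h3) ?_) h1
  omega

theorem rk_Ft {O : Type} [CommRing O] {L : Type} [AddCommGroup L] [Module.Free ℤ L]
    [Module.Finite ℤ L] (G d : AO O L) (h0 : d.coeff 0 ≠ 0) :
    rk (supp (Ft G d)) = rk (supp G ∪ supp d) + 1 := by
  classical
  set W : Set L := supp G ∪ supp d with hW
  let f : (Submodule.span ℤ W) × ℤ →ₗ[ℤ] L × ℤ :=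
    LinearMap.prodMap (Submodule.span ℤ W).subtype LinearMap.id
  have hf : Function.Injective f := by
    intro x y hxy
    have h1 : ((x.1 : L), x.2) = ((y.1 : L), y.2) := hxy
    rw [Prod.mk.injEq] at h1
    exact Prod.ext (Subtype.ext h1.1) h1.2
  have h01 : ((0 : L), (1 : ℤ)) ∈ Submodule.span ℤ (supp (Ft G d)) :=
    Submodule.subset_span ((Ft_supp G d _).mpr (Or.inr ⟨rfl, h0⟩))
  have hr : LinearMap.range f = Submodule.span ℤ (supp (Ft G d)) := by
    apply le_antisymm
    · rintro _ ⟨⟨x, k⟩, rfl⟩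
      have h1 : f (x, k) = ((x : L), (0 : ℤ)) + k • ((0 : L), (1 : ℤ)) := by
        change ((x : L), k) = _
        simp
      rw [h1]
      refine Submodule.add_mem _ ?_ (Submodule.smul_mem _ _ h01)
      have h2 : (Submodule.span ℤ W).map (LinearMap.inl ℤ L ℤ) ≤
          Submodule.span ℤ (supp (Ft G d)) := by
        rw [Submodule.map_span, Submodule.span_le]
        rintro _ ⟨a, ha | ha, rfl⟩
        · exact Submodule.subset_span ((Ft_supp G d _).mpr (Or.inl ⟨rfl, ha⟩))
        · have h3 : (a, (1 : ℤ)) ∈ Submodule.span ℤ (supp (Ft G d)) :=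
            Submodule.subset_span ((Ft_supp G d _).mpr (Or.inr ⟨rfl, ha⟩))
          have h4 := Submodule.sub_mem _ h3 h01
          have h5 : (a, (1 : ℤ)) - ((0 : L), (1 : ℤ)) = (a, 0) := by simp
          rw [h5] at h4
          exact h4
      exact h2 ⟨(x : L), x.2, rfl⟩
    · rw [Submodule.span_le]
      intro x hx
      rcases (Ft_supp G d x).mp hx with ⟨h1, h2⟩ | ⟨h1, h2⟩
      · exact ⟨(⟨x.1, Submodule.subset_span (Or.inl h2)⟩, x.2), rfl⟩
      · exact ⟨(⟨x.1, Submodule.subset_span (Or.inr h2)⟩, x.2), rfl⟩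
  have h1 : Module.finrank ℤ (LinearMap.range f) =
      Module.finrank ℤ ((Submodule.span ℤ W) × ℤ) := LinearMap.finrank_range_of_inj hf
  rw [hr, Module.finrank_prod, Module.finrank_self] at h1
  exact h1

section

variable {O : Type} [CommRing O] [IsDomain O] [IsPrincipalIdealRing O] [Coef O] {P : Type}
  [Fintype P] [DecidableEq P] {L : Type} [AddCommGroup L] [Module.Free ℤ L] [Module.Finite ℤ L]

variable {phi : L →+ (P → ℤ)} {D : AO O L} {eta : L → (RO O)ˣ} {Z : Fin 4 → L}
  {dl : Fin 4 → Fin 4 → L →+ ℤ} {p : P}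

/-- The rank of the exponents of `G` and `d`. -/
theorem Dat.rank (hRk : RkS) (h : Dat phi D eta Z dl p)
    (hfac : rk {a | a ∈ supp D ∧ phi a p = 0} + 1 = Module.finrank ℤ L) (hZ : ∀ i, Z i ≠ 0) :
    rk (supp (Gz phi D eta Z dl p) ∪ supp (Del phi D eta Z dl)) + 4 = Module.finrank ℤ L := by
  classical
  set W : Set L := supp (Gz phi D eta Z dl p) ∪ supp (Del phi D eta Z dl) with hW
  have hWi : ∀ a ∈ W, phi a p = 0 ∧ ∀ i j, dl i j a = 0 := by
    rintro a (ha | ha)
    · exact (Gz_supp ha).1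
    · exact h.fr_im (Del_supp ha).1
  have hWs : ∀ x ∈ Submodule.span ℤ W, phi x p = 0 ∧ ∀ i j, dl i j x = 0 := by
    intro x hx
    induction hx using Submodule.span_induction with
    | mem x hx => exact hWi x hx
    | zero => exact ⟨by rw [map_zero]; rfl, fun _ _ => map_zero _⟩
    | add x y _ _ hx hy =>
      refine ⟨by rw [map_add, Pi.add_apply, hx.1, hy.1, add_zero], fun i j => ?_⟩
      rw [map_add, hx.2, hy.2, add_zero]
    | smul c x _ hx =>
      refine ⟨by rw [map_zsmul, Pi.smul_apply, hx.1, smul_zero], fun i j => ?_⟩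
      rw [map_zsmul, hx.2, smul_zero]
  apply le_antisymm
  · let f : (Submodule.span ℤ W) × (Fin 4 → ℤ) →ₗ[ℤ] L :=
      LinearMap.coprod (Submodule.span ℤ W).subtype (Fintype.linearCombination ℤ Z)
    have hfa : ∀ x : (Submodule.span ℤ W) × (Fin 4 → ℤ), f x = (x.1 : L) + ∑ i, x.2 i • Z i := by
      intro x
      change ((x.1 : L)) + Fintype.linearCombination ℤ Z x.2 = _
      rw [Fintype.linearCombination_apply]
    have hf : Function.Injective f := by
      rw [← LinearMap.ker_eq_bot, LinearMap.ker_eq_bot']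
      intro x hx
      rw [hfa] at hx
      obtain ⟨h1, h2⟩ := hWs _ x.1.2
      have hk0 : x.2 0 = 0 := by
        have h3 := congrArg (fun y => phi y p) hx
        simp only [map_add, map_sum, map_zsmul, Pi.add_apply, Finset.sum_apply, Pi.smul_apply,
          map_zero, Pi.zero_apply] at h3
        rw [h1, zero_add, Finset.sum_eq_single (0 : Fin 4), h.p0] at h3
        · simpa using h3
        · intro i _ hi
          rw [h.pi i hi, smul_zero]
        · intro hn
          exact absurd (Finset.mem_univ _) hn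
      have hki : ∀ i, x.2 i = 0 := by
        intro i
        by_cases hi : i = 0
        · rw [hi, hk0]
        · have h3 := congrArg (fun y => dl 0 i y) hx
          simp only [map_add, map_sum, map_zsmul, map_zero] at h3
          rw [h2, zero_add, Finset.sum_eq_single i, h.di i hi, smul_eq_mul] at h3
          · omega
          · intro j _ hj
            by_cases hj0 : j = 0
            · rw [hj0, hk0, zero_smul]
            · rw [h.dj i j hi hj0 (Ne.symm hj), smul_zero]
          · intro hn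
            exact absurd (Finset.mem_univ _) hn
      have hx1 : x.1 = 0 := by
        apply Subtype.ext
        rw [Finset.sum_eq_zero (fun i _ => by rw [hki i, zero_smul]), add_zero] at hx
        exact hx
      exact Prod.ext hx1 (funext hki)
    have h1 := LinearMap.finrank_le_finrank_of_injective hf
    rw [Module.finrank_prod, Module.finrank_fin_fun] at h1
    exact h1
  · obtain ⟨-, -, -, -, -, hun, hone, -, hdom, -⟩ := hRk L L
    set T3 : Set L := {Z 1} ∪ ({Z 2} ∪ {Z 3}) with hT3
    have h3 : rk T3 ≤ 3 := by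
      have e1 := hun {Z 1} ({Z 2} ∪ {Z 3})
      have e2 := hun {Z 2} {Z 3}
      rw [hone _ (hZ 1)] at e1
      rw [hone _ (hZ 2), hone _ (hZ 3)] at e2
      rw [hT3]
      omega
    have h4 : rk {a | a ∈ supp D ∧ phi a p = 0} ≤ rk (W ∪ T3) := by
      refine hdom _ _ ?_
      rintro a ⟨ha, hp⟩
      refine ⟨1, one_ne_zero, ?_⟩
      rw [one_smul]
      rcases h.nf a ha with h5 | ⟨T, u, hT, -, h6, h7⟩
      · have him : IM phi p dl a := ⟨hp, h5⟩
        apply Submodule.subset_span
        left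
        by_cases hd : (Del phi D eta Z dl).coeff a = 0
        · left
          change (Gz phi D eta Z dl p).coeff a ≠ 0
          rw [Gz_coeff _ _ _ _ _ _ _ him, hd, sub_zero]
          exact ha
        · exact Or.inr hd
      · have h0 : (0 : Fin 4) ∉ T := by
          intro h0
          rw [h6, map_add, Pi.add_apply, h.sum_p, if_pos h0, h.fr_p h7] at hp
          norm_num at hp
        have hu : (Del phi D eta Z dl).coeff u ≠ 0 := by
          intro hu0
          have h8 := h.coe h7 T (Finset.nonempty_iff_ne_empty.mpr hT) h0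
          rw [hu0, zero_mul, ← h6] at h8
          exact ha h8
        rw [h6]
        refine Submodule.add_mem _ (Submodule.sum_mem _ fun i hi => ?_)
          (Submodule.subset_span (Or.inl (Or.inr hu)))
        have hi0 : i ≠ 0 := fun h8 => h0 (h8 ▸ hi)
        apply Submodule.subset_span
        right
        have hi4 : i = 1 ∨ i = 2 ∨ i = 3 := by
          fin_cases i <;> simp_all
        rcases hi4 with h8 | h8 | h8
        · rw [h8]; exact Or.inl rfl
        · rw [h8]; exact Or.inr (Or.inl rfl)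
        · rw [h8]; exact Or.inr (Or.inr rfl)
    have h5 := hun W T3
    omega

end

/-- (AM_DTI). -/
theorem dti (hFnf : FnfS) (hFa : FaceS) (hSS : StSpecS) (hM : MultiS) (hRS : RaySpanS)
    (hD2 : D2S) (hE2 : E2S) (hEv : EvRS) (hCo : ComplS) (hCI : ComplIrrS) (hSh : SharpS)
    (hU : UnitAS) (hDe : DensS) (hB4 : B4S) (hMin : MinS) (hC0 : Coeff0S) (hWW : WWfS)
    (hTh : ThinS) (hC3 : C3S) (hC4 : C4S) (hPr : PrimS) (hE1 : E1S) (hMV : MVS) (hM1 : M1S)
    (hA1 : A1S) (hRk : RkS) (hRW : ResWDS) (hRSt : ResStS) : DtiS := by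
  classical
  intro O _ _ _ _ P L _ _ _ _ _ phi D eta θ Z dl hFP h2 hP hF hV0 hQ2
  have hD : DD phi D := hFP.dd
  obtain ⟨hzD, hth, -, -, -, hrayn⟩ := hE2 O P L phi D hD h2
  obtain ⟨hnf, hfl⟩ := hFnf O P L phi D eta Z dl hFP h2 hF hV0
  have hray : ∀ i, Ray D (Z i) := by
    intro i
    by_cases hi : i = 0
    · rw [hi]
      exact (hF.mtl 0 1 (by decide)).r0
    · exact (hF.mtl i 0 hi).r0
  have hZne : ∀ i, Z i ≠ 0 := fun i => (hray i).2.1
  obtain ⟨p, hp0⟩ : ∃ p, phi (Z 0) p = 1 := by
    by_contra hne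
    push Not at hne
    apply hZne 0
    apply hD.inj
    rw [map_zero]
    funext i
    exact (hD.bin _ (hray 0).1 i).resolve_right (hne i)
  have h : Dat phi D eta Z dl p :=
    { inj := hD.inj
      bin := hD.bin
      p0 := hp0
      pi := fun i hi => by
        rcases hF.dis 0 i (Ne.symm hi) p with h1 | h1
        · rw [hp0] at h1
          exact absurd h1 one_ne_zero
        · exact h1
      d0 := fun i hi => hF.pos 0 i (Ne.symm hi)
      di := fun i hi => hF.neg 0 i (Ne.symm hi)
      dj := fun i j hi hj hij => hF.oth 0 i (Z j) (hray j) (fun h1 => hj (hF.inj h1))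
        (fun h1 => hij (hF.inj h1).symm)
      nf := fun a ha => by
        rcases hnf a ha with h1 | ⟨T, u, h3, h4, h5, h6, h7⟩
        · exact Or.inl h1
        · exact Or.inr ⟨T, u, h3, h4, h5, h6, h7⟩
      fl := fun u T i j k hu => hfl u T i j k hu.1 hu.2 }
  obtain ⟨lam, hl1, hl2, hl3⟩ := h.functional hD2 hRS hth (by
    obtain ⟨_, l0, hl0, _⟩ := hD.st
    exact ⟨l0, hl0⟩)
    (fun i T _ hT h0 h1 => hF.oth 0 i T hT h0 h1)
  have hl : Lam phi D Z dl lam := ⟨hl1, hl2, hl3⟩
  set G : AO O L := Gz phi D eta Z dl p with hG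
  set d : AO O L := Del phi D eta Z dl with hd
  have hzf : ∀ (z : Circle) (u : AddChar L Circle) (s c : ℂ), ‖s‖ < 1 → ‖1 - c‖ < 1 →
      (sl u lam (spec z G)).eval s + (sl u lam (spec z d)).eval s * c ^ 3 ≠ 0 :=
    fun z u s c => h.zf hM hSS hFa hEv hD.st hl z (hzD z) u s c
  have hG0e : G.coeff 0 = D.coeff 0 + (eta (Z 1) : RO O) * D.coeff (Z 1) := Gz_zero _ _ _ _ _ _
  have hd0e : d.coeff 0 = -((eta (Z 1) : RO O) * D.coeff (Z 1)) := Del_zero _ _ _ _ _
  have hcoe : (eta (Z 1) : RO O) * D.coeff (Z 1) = (eta (Z 0) : RO O) * D.coeff (Z 0) :=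
    hF.coe 1 0
  have hG0 : G.coeff 0 ≠ 0 := by rw [hG0e]; exact hV0 1
  have hd0 : d.coeff 0 ≠ 0 := by
    rw [hd0e]
    exact neg_ne_zero.mpr (mul_ne_zero (eta (Z 1)).ne_zero (hray 1).1)
  have hGpos : Pos lam G := hl.gz_pos h
  have hdpos : Pos lam d := hl.del_pos h
  have hFst : Stable (Ft G d) := Ft_stable hGpos hdpos hG0 hzf
  have hGst : Stable G := G_stable hFa hFst
  have hGne : G ≠ 0 := by
    intro h0
    rw [h0] at hG0
    exact hG0 rfl
  have hdne : d ≠ 0 := by
    intro h0
    rw [h0] at hd0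
    exact hd0 rfl
  have hcop := h.coprime hB4 hMin hC0 hWW hTh hC3 hC4 hPr hE1 hMV hM1 hA1 hEv hD hl hP hzD
    (hrayn _ (hray 1)).1 (hrayn _ (hray 1)).2 (hray 1).1 (hray 0).1 hGst
  have hFirr : Irreducible (Ft G d) := Ft_irr hGne hdne hcop
  have hFc0 : (Ft G d).coeff 0 = G.coeff 0 := by
    have h1 := Ft_coeff G d 0 0
    rw [if_pos rfl] at h1
    exact h1
  have hFne : Ft G d ≠ 0 := hFirr.ne_zero
  have hnu : ¬ Unitary (Ft G d) := by
    intro hun
    have h1 := Ft_unitary hU hEv hSh hDe hG0 hd0 hzf hun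
    apply hQ2
    have h3 : G.coeff 0 = d.coeff 0 := by rw [h1]
    rw [hG0e, hd0e, hcoe] at h3
    linear_combination h3
  have hcirr : Irreducible (compl (Ft G d)) := by
    refine hCI O (L × ℤ) (Ft G d) hFne ?_
    intro f hf h1 h3
    apply hnu
    have h4 : Associated f (Ft G d) := hf.associated_of_dvd hFirr h1
    have h5 : Associated f (sharp (Ft G d)) :=
      hf.associated_of_dvd ((hSh O (L × ℤ) (Ft G d)).2.2.1 hFirr) h3
    exact h5.symm.trans h4
  obtain ⟨hcst, hcun, hcc0, hcs, hcrk⟩ := hCo O (L × ℤ) (Ft G d) hFst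
  have hcne : compl (Ft G d) ≠ 0 := hcirr.ne_zero
  obtain ⟨K', hsat, hmem, hfr, hirr', hun', hrk'⟩ := hRW O ((L × ℤ) × ℤ) (compl (Ft G d)) hcne
  have hrank : rk (supp (compl (Ft G d))) + 2 = Module.finrank ℤ L := by
    rw [hcrk, rk_Ft G d hd0]
    have h1 := h.rank hRk (hFP.fac p).2 hZne
    rw [← hG, ← hd] at h1
    omega
  have hFbin : ∀ x ∈ supp (Ft G d), Bin phi x.1 ∧ (x.2 = 0 ∨ x.2 = 1) := by
    intro x hx
    rcases (Ft_supp G d x).mp hx with ⟨h1, h3⟩ | ⟨h1, h3⟩
    · exact ⟨h.gz_bin h3, Or.inl h1⟩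
    · exact ⟨h.del_bin h3, Or.inr h1⟩
  refine ⟨Option (Option P), K', inferInstance, inferInstance, inferInstance, inferInstance,
    inferInstance, (psi phi).comp (incl K'), res K' (compl (Ft G d)), ?_, ?_, ?_⟩
  · refine ⟨?_, ?_, (hRSt O _ _ K' hsat hmem).1 hcst, hun' hcun, hirr' hcirr, ?_⟩
    · intro x y hxy
      exact Subtype.ext (psi_inj phi hD.inj hxy)
    · intro a ha
      have ha' : (a : (L × ℤ) × ℤ) ∈ supp (compl (Ft G d)) := ha
      intro o
      change psi phi (a : (L × ℤ) × ℤ) o = 0 ∨ psi phi (a : (L × ℤ) × ℤ) o = 1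
      rcases hcs _ ha' with ⟨h1, h3⟩ | ⟨h1, h3⟩
      · obtain ⟨h4, h5⟩ := hFbin _ h3
        rcases o with _ | _ | q
        · rw [psi_none, h1]
          exact Or.inl rfl
        · rw [psi_some_none, h1]
          omega
        · rw [psi_some_some, h1]
          have := h4 q
          omega
      · obtain ⟨h4, h5⟩ := hFbin _ h3
        rcases o with _ | _ | q
        · rw [psi_none, h1]
          exact Or.inr rfl
        · rw [psi_some_none, h1]
          have h6 : (-(a : (L × ℤ) × ℤ).1).2 = -(a : (L × ℤ) × ℤ).1.2 := rfl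
          rw [h6] at h5
          omega
        · rw [psi_some_some, h1]
          have h6 := h4 q
          have h7 : phi (-(a : (L × ℤ) × ℤ).1).1 q = -phi (a : (L × ℤ) × ℤ).1.1 q := by
            have h8 : (-(a : (L × ℤ) × ℤ).1).1 = -((a : (L × ℤ) × ℤ).1.1) := rfl
            rw [h8, map_neg]
            rfl
          rw [h7] at h6
          omega
    · rw [hrk', hfr]
  · rw [hfr]
    exact hrank
  · change (compl (Ft G d)).coeff 0 = _
    rw [hcc0, hFc0, hG0e, hcoe]

end Pool.Agent.B5.H02
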