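import Pool.Agent.Lib.MP_b5021c_nt.IfaceAM
import Pool.Agent.Lib.MP_b5021c_nt.B.H83.I1A
import Pool.Agent.Lib.MP_b5021c_nt.B.H59.Cst

/-!
# Board b5, row AM_DTI: cube roots, multiplicativity of multi-slices
-/

set_option linter.unusedSectionVars false

namespace Pool.Agent.B5.H02

open scoped LaurentPolynomial
open AddMonoidAlgebra

/-! ## Cube roots -/

theorem cube_pow (w : ℂ) : (w ^ ((1 : ℂ) / 3)) ^ 3 = w := by
  have h := Complex.cpow_nat_inv_pow w (n := 3) (by norm_num)
  rw [one_div]
  exact_mod_cast h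

/-- The principal cube root is near `1`. -/
theorem cube_near (w : ℂ) (h0 : w ≠ 0) (h : ‖w‖ < 1 ∨ (‖w‖ = 1 ∧ w ≠ -1)) :
    ‖1 - w ^ ((1 : ℂ) / 3)‖ < 1 := by
  set c : ℂ := w ^ ((1 : ℂ) / 3) with hc
  have hn : ‖c‖ ^ 3 = ‖w‖ := by rw [← norm_pow, hc, cube_pow]
  have hc0 : c ≠ 0 := by
    intro h1
    rw [h1, norm_zero] at hn
    apply h0
    rw [← norm_eq_zero, ← hn]
    norm_num
  have hcpos : 0 < ‖c‖ := norm_pos_iff.mpr hc0
  have harg : c.arg = w.arg / 3 := by
    have h1 : c = ((‖w‖ ^ ((1 : ℝ) / 3) : ℝ) : ℂ) *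
        (Real.cos (w.arg / 3) + Real.sin (w.arg / 3) * Complex.I) := by
      rw [hc, Complex.cpow_def_of_ne_zero h0]
      have h2 : Complex.log w * (1 / 3) = ((Real.log ‖w‖ * (1 / 3) : ℝ) : ℂ) +
          ((w.arg / 3 : ℝ) : ℂ) * Complex.I := by
        rw [Complex.log]
        push_cast
        ring
      rw [h2, Complex.exp_add, Complex.exp_mul_I, ← Complex.ofReal_cos, ← Complex.ofReal_sin,
        ← Complex.ofReal_exp, Real.rpow_def_of_pos (norm_pos_iff.mpr h0)]
    rw [h1, Complex.arg_real_mul]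
    · rw [Complex.ofReal_cos, Complex.ofReal_sin]
      have h3 := Complex.neg_pi_lt_arg w
      have h4 := Complex.arg_le_pi w
      have h5 := Real.pi_pos
      have h6 : w.arg / 3 ∈ Set.Ioc (-Real.pi) Real.pi := ⟨by linarith, by linarith⟩
      have h7 := Complex.arg_cos_add_sin_mul_I h6
      exact h7
    · exact Real.rpow_pos_of_pos (norm_pos_iff.mpr h0) _
  have hre : c.re = ‖c‖ * Real.cos (w.arg / 3) := by
    rw [← harg, Complex.norm_mul_cos_arg]
  have hlt : ‖c‖ < 2 * Real.cos (w.arg / 3) := by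
    have h3 := Complex.neg_pi_lt_arg w
    have h4 := Complex.arg_le_pi w
    have h5 := Real.pi_pos
    have habs : Real.cos (w.arg / 3) = Real.cos (|w.arg| / 3) := by
      rw [← Real.cos_abs (w.arg / 3), abs_div, abs_of_pos (show (0 : ℝ) < 3 by norm_num)]
    have hle : |w.arg| ≤ Real.pi := abs_le.mpr ⟨h3.le, h4⟩
    rcases h with h1 | ⟨h1, h2⟩
    · have h6 : ‖c‖ < 1 := by
        by_contra hcon
        push Not at hcon
        have : 1 ≤ ‖c‖ ^ 3 := one_le_pow₀ hcon
        rw [hn] at this
        linarith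
      have h7 : (1 : ℝ) / 2 ≤ Real.cos (w.arg / 3) := by
        rw [habs, ← Real.cos_pi_div_three]
        exact Real.cos_le_cos_of_nonneg_of_le_pi (by positivity) (by linarith) (by linarith)
      linarith
    · have h6 : ‖c‖ ≤ 1 := by
        by_contra hcon
        push Not at hcon
        have : 1 < ‖c‖ ^ 3 := one_lt_pow₀ hcon (by norm_num)
        rw [hn] at this
        linarith
      have h8 : |w.arg| < Real.pi := by
        refine lt_of_le_of_ne hle ?_
        intro h9
        have h10 : w.arg = Real.pi := by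
          rcases abs_eq h5.le |>.mp h9 with h11 | h11
          · exact h11
          · linarith
        apply h2
        rw [← Complex.norm_mul_exp_arg_mul_I w, h1, h10]
        simp
      have h7 : (1 : ℝ) / 2 < Real.cos (w.arg / 3) := by
        rw [habs, ← Real.cos_pi_div_three]
        exact Real.cos_lt_cos_of_nonneg_of_le_pi (by positivity) (by linarith) (by linarith)
      linarith
  have hsq : ‖1 - c‖ ^ 2 = 1 - 2 * c.re + ‖c‖ ^ 2 := by
    rw [Complex.sq_norm, Complex.sq_norm, Complex.normSq_apply, Complex.normSq_apply]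
    simp
    ring
  have h9 : ‖1 - c‖ ^ 2 < 1 := by
    rw [hsq, hre]
    nlinarith
  by_contra hcon
  push Not at hcon
  have : 1 ≤ ‖1 - c‖ ^ 2 := one_le_pow₀ hcon
  linarith

/-! ## Multi-slices -/

section

variable {L : Type} [AddCommGroup L] {ι : Type} [Fintype ι]

theorem mev_mul (u : AddChar L Circle) (mu : ι → L →+ ℤ) (t : ι → ℂ) (p q : CA L)
    (hp : ∀ i, Nn (mu i) p) (hq : ∀ i, Nn (mu i) q) :
    mev u mu t (p * q) = mev u mu t p * mev u mu t q := by
  let f : CA L →+ ℂ :=
    { toFun := fun p => mev u mu t (p * q)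
      map_zero' := by rw [zero_mul, H83.mev_zero]
      map_add' := fun p q => by rw [add_mul, H83.mev_add] }
  let g : CA L →+ ℂ :=
    { toFun := fun p => mev u mu t p * mev u mu t q
      map_zero' := by rw [H83.mev_zero, zero_mul]
      map_add' := fun p q => by rw [H83.mev_add, add_mul] }
  refine H83.eq_of_single f g p (fun a ha => ?_)
  change mev u mu t (single a (p.coeff a) * q) = mev u mu t (single a (p.coeff a)) * mev u mu t q
  have ha' : ∀ i, 0 ≤ mu i a := fun i => hp i a (Finsupp.mem_support_iff.mpr ha)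
  let f2 : CA L →+ ℂ :=
    { toFun := fun q => mev u mu t (single a (p.coeff a) * q)
      map_zero' := by rw [mul_zero, H83.mev_zero]
      map_add' := fun p q => by rw [mul_add, H83.mev_add] }
  let g2 : CA L →+ ℂ :=
    { toFun := fun q => mev u mu t (single a (p.coeff a)) * mev u mu t q
      map_zero' := by rw [H83.mev_zero, mul_zero]
      map_add' := fun p q => by rw [H83.mev_add, mul_add] }
  refine H83.eq_of_single f2 g2 q (fun b hb => ?_)
  change mev u mu t (single a (p.coeff a) * single b (q.coeff b)) =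
    mev u mu t (single a (p.coeff a)) * mev u mu t (single b (q.coeff b))
  have hb' : ∀ i, 0 ≤ mu i b := fun i => hq i b (Finsupp.mem_support_iff.mpr hb)
  rw [single_mul_single, H83.mev_single, H83.mev_single, H83.mev_single]
  have h1 : ∏ i, t i ^ (mu i (a + b)).toNat =
      (∏ i, t i ^ (mu i a).toNat) * ∏ i, t i ^ (mu i b).toNat := by
    rw [← Finset.prod_mul_distrib]
    refine Finset.prod_congr rfl fun i _ => ?_
    rw [← pow_add, map_add, Int.toNat_add (ha' i) (hb' i)]
  rw [h1, AddChar.map_add_eq_mul, Circle.coe_mul]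
  ring

theorem nn_mul (lam : L →+ ℤ) (p q : CA L) (hp : Nn lam p) (hq : Nn lam q) : Nn lam (p * q) := by
  classical
  intro a ha
  have h1 := Finset.mem_of_subset (AddMonoidAlgebra.support_coeff_mul_subset p q) ha
  rw [Finset.mem_add] at h1
  obtain ⟨x, hx, y, hy, rfl⟩ := h1
  rw [map_add]
  exact add_nonneg (hp x hx) (hq y hy)

theorem nn_mul_all (mu : ι → L →+ ℤ) (p q : CA L) (hp : ∀ i, Nn (mu i) p)
    (hq : ∀ i, Nn (mu i) q) : ∀ i, Nn (mu i) (p * q) :=
  fun i => nn_mul (mu i) p q (hp i) (hq i)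

end

end Pool.Agent.B5.H02
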