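import Pool.Agent.Lib.MP_b5021c_nt.E.H02.DtiA
import Pool.Agent.Lib.MP_b5021c_nt.H96.Fce2

/-!
# Board b5, row AM_DTI: the face at a port of `Z 0` is `G + d ∏ (1 - x i)`
-/

set_option linter.unusedSectionVars false

namespace Pool.Agent.B5.H02

open scoped LaurentPolynomial
open AddMonoidAlgebra

section

variable {O : Type} [CommRing O] [Coef O] {P : Type} [Fintype P] [DecidableEq P] {L : Type}
  [AddCommGroup L]

/-- `u` is disjoint from all `Z i` and is killed by all differences. -/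
def Fr (phi : L →+ (P → ℤ)) (Z : Fin 4 → L) (dl : Fin 4 → Fin 4 → L →+ ℤ) (u : L) : Prop :=
  (∀ i p, phi u p = 0 ∨ phi (Z i) p = 0) ∧ ∀ i j, dl i j u = 0

/-- `a` does not contain the port `p` and is killed by all differences. -/
def IM (phi : L →+ (P → ℤ)) (p : P) (dl : Fin 4 → Fin 4 → L →+ ℤ) (a : L) : Prop :=
  phi a p = 0 ∧ ∀ i j, dl i j a = 0

open Classical in
/-- The element `d`. -/
noncomputable def Del (phi : L →+ (P → ℤ)) (D : AO O L) (eta : L → (RO O)ˣ) (Z : Fin 4 → L)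
    (dl : Fin 4 → Fin 4 → L →+ ℤ) : AO O L :=
  ofCoeff ((single (-Z 1) (-(eta (Z 1) : RO O)) * D).coeff.filter fun u => Fr phi Z dl u)

open Classical in
/-- The element `G`. -/
noncomputable def Gz (phi : L →+ (P → ℤ)) (D : AO O L) (eta : L → (RO O)ˣ) (Z : Fin 4 → L)
    (dl : Fin 4 → Fin 4 → L →+ ℤ) (p : P) : AO O L :=
  ofCoeff ((D - Del phi D eta Z dl).coeff.filter fun u => IM phi p dl u)

theorem Del_coeff (phi : L →+ (P → ℤ)) (D : AO O L) (eta : L → (RO O)ˣ) (Z : Fin 4 → L)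
    (dl : Fin 4 → Fin 4 → L →+ ℤ) (u : L) (h : Fr phi Z dl u) :
    (Del phi D eta Z dl).coeff u = -((eta (Z 1) : RO O) * D.coeff (Z 1 + u)) := by
  classical
  unfold Del
  rw [coeff_ofCoeff, Finsupp.filter_apply, if_pos h, coeff_single_mul_apply, neg_neg]
  ring

theorem Del_not (phi : L →+ (P → ℤ)) (D : AO O L) (eta : L → (RO O)ˣ) (Z : Fin 4 → L)
    (dl : Fin 4 → Fin 4 → L →+ ℤ) (u : L) (h : ¬ Fr phi Z dl u) :
    (Del phi D eta Z dl).coeff u = 0 := by
  classical
  unfold Del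
  rw [coeff_ofCoeff, Finsupp.filter_apply, if_neg h]

theorem Gz_coeff (phi : L →+ (P → ℤ)) (D : AO O L) (eta : L → (RO O)ˣ) (Z : Fin 4 → L)
    (dl : Fin 4 → Fin 4 → L →+ ℤ) (p : P) (a : L) (h : IM phi p dl a) :
    (Gz phi D eta Z dl p).coeff a = D.coeff a - (Del phi D eta Z dl).coeff a := by
  classical
  unfold Gz
  rw [coeff_ofCoeff, Finsupp.filter_apply, if_pos h, coeff_sub, Finsupp.sub_apply]

theorem Gz_not (phi : L →+ (P → ℤ)) (D : AO O L) (eta : L → (RO O)ˣ) (Z : Fin 4 → L)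
    (dl : Fin 4 → Fin 4 → L →+ ℤ) (p : P) (a : L) (h : ¬ IM phi p dl a) :
    (Gz phi D eta Z dl p).coeff a = 0 := by
  classical
  unfold Gz
  rw [coeff_ofCoeff, Finsupp.filter_apply, if_neg h]

/-- The product `∏ (1 - x i)` over `i ≠ 0`. -/
noncomputable def Pr3 (eta : L → (RO O)ˣ) (Z : Fin 4 → L) : AO O L :=
  ∏ i ∈ Finset.univ.erase (0 : Fin 4), (1 - single (Z i) (((eta (Z i))⁻¹ : (RO O)ˣ) : RO O))

/-- The product of some `- x i`. -/
theorem prod_neg_single (eta : L → (RO O)ˣ) (Z : Fin 4 → L) (T : Finset (Fin 4)) :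
    ∏ i ∈ T, (-single (Z i) (((eta (Z i))⁻¹ : (RO O)ˣ) : RO O) : AO O L) =
      single (∑ i ∈ T, Z i) ((-1) ^ T.card * ∏ i ∈ T, (((eta (Z i))⁻¹ : (RO O)ˣ) : RO O)) := by
  classical
  induction T using Finset.induction_on with
  | empty => rw [Finset.prod_empty, Finset.sum_empty, Finset.prod_empty, Finset.card_empty, pow_zero, one_mul, one_def]
  | insert i T hi ih =>
    rw [Finset.prod_insert hi, ih, Finset.sum_insert hi, Finset.prod_insert hi,
      Finset.card_insert_of_notMem hi, ← single_neg, single_mul_single]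
    congr 1
    ring

theorem Pr3_expand (eta : L → (RO O)ˣ) (Z : Fin 4 → L) :
    (Pr3 eta Z : AO O L) = ∑ T ∈ (Finset.univ.erase (0 : Fin 4)).powerset,
      single (∑ i ∈ T, Z i) ((-1) ^ T.card * ∏ i ∈ T, (((eta (Z i))⁻¹ : (RO O)ˣ) : RO O)) := by
  unfold Pr3
  have h1 : ∀ i ∈ Finset.univ.erase (0 : Fin 4),
      (1 - single (Z i) (((eta (Z i))⁻¹ : (RO O)ˣ) : RO O) : AO O L) =
        -single (Z i) (((eta (Z i))⁻¹ : (RO O)ˣ) : RO O) + 1 := fun i _ => by ring
  rw [Finset.prod_congr rfl h1, Finset.prod_add]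
  refine Finset.sum_congr rfl fun T _ => ?_
  rw [Finset.prod_const_one, mul_one, prod_neg_single]

/-- A function of sets which does not change by insertions is constant. -/
theorem const_of_insert {R : Type} (c : Finset (Fin 4) → R)
    (h : ∀ (T : Finset (Fin 4)) (i : Fin 4), T.Nonempty → 0 ∉ T → i ≠ 0 → i ∉ T →
      c (insert i T) = c T) : ∀ (n : ℕ) (T : Finset (Fin 4)), T.card = n → T.Nonempty → 0 ∉ T →
        c T = c {1} := by
  have key : ∀ (n : ℕ) (T : Finset (Fin 4)), T.card = n → 1 ∈ T → 0 ∉ T → c T = c {1} := by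
    intro n
    induction n with
    | zero =>
      intro T hT h1
      rw [Finset.card_eq_zero] at hT
      rw [hT] at h1
      exact absurd h1 (Finset.notMem_empty _)
    | succ n ih =>
      intro T hT h1 h0
      by_cases hT1 : T = {1}
      · rw [hT1]
      · obtain ⟨i, hi, hi1⟩ : ∃ i ∈ T, i ≠ 1 := by
          by_contra hne
          push Not at hne
          exact hT1 (Finset.eq_singleton_iff_unique_mem.mpr ⟨h1, hne⟩)
        have h2 : (1 : Fin 4) ∈ T.erase i := Finset.mem_erase.mpr ⟨Ne.symm hi1, h1⟩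
        have h3 : (0 : Fin 4) ∉ T.erase i := fun h => h0 (Finset.mem_of_mem_erase h)
        have h4 := h (T.erase i) i ⟨1, h2⟩ h3 (fun h => h0 (h ▸ hi)) (Finset.notMem_erase i T)
        rw [Finset.insert_erase hi] at h4
        rw [h4]
        refine ih (T.erase i) ?_ h2 h3
        rw [Finset.card_erase_of_mem hi, hT]
        rfl
  intro n T _ hne h0
  by_cases h1 : (1 : Fin 4) ∈ T
  · exact key _ T rfl h1 h0
  · rw [← h T 1 hne h0 (by decide) h1]
    refine key _ _ rfl (Finset.mem_insert_self _ _) ?_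
    rw [Finset.mem_insert]
    rintro (h2 | h2)
    · exact absurd h2 (by decide)
    · exact h0 h2

/-- The facts about the four rays and the exponents. -/
structure Dat (phi : L →+ (P → ℤ)) (D : AO O L) (eta : L → (RO O)ˣ) (Z : Fin 4 → L)
    (dl : Fin 4 → Fin 4 → L →+ ℤ) (p : P) : Prop where
  inj : Function.Injective phi
  bin : ∀ a ∈ supp D, Bin phi a
  p0 : phi (Z 0) p = 1
  pi : ∀ i, i ≠ 0 → phi (Z i) p = 0
  d0 : ∀ i, i ≠ 0 → dl 0 i (Z 0) = 1
  di : ∀ i, i ≠ 0 → dl 0 i (Z i) = -1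
  dj : ∀ i j, i ≠ 0 → j ≠ 0 → i ≠ j → dl 0 i (Z j) = 0
  nf : ∀ a ∈ supp D, (∀ i j, dl i j a = 0) ∨ ∃ (T : Finset (Fin 4)) (u : L),
        T ≠ ∅ ∧ T ≠ Finset.univ ∧ a = ∑ i ∈ T, Z i + u ∧ Fr phi Z dl u
  fl : ∀ (u : L) (T : Finset (Fin 4)) (i j k : Fin 4), Fr phi Z dl u →
          i ∉ T → j ∈ T → k ∉ T → k ≠ i →
            D.coeff (∑ j ∈ T, Z j + u) +
              (eta (Z i) : RO O) * D.coeff (∑ j ∈ insert i T, Z j + u) = 0

variable {phi : L →+ (P → ℤ)} {D : AO O L} {eta : L → (RO O)ˣ} {Z : Fin 4 → L}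
  {dl : Fin 4 → Fin 4 → L →+ ℤ} {p : P}

theorem Dat.fr_p (h : Dat phi D eta Z dl p) {u : L} (hu : Fr phi Z dl u) : phi u p = 0 := by
  rcases hu.1 0 p with h1 | h1
  · exact h1
  · rw [h.p0] at h1
    exact absurd h1 one_ne_zero

theorem Dat.fr_im (h : Dat phi D eta Z dl p) {u : L} (hu : Fr phi Z dl u) : IM phi p dl u :=
  ⟨h.fr_p hu, hu.2⟩

/-- The port `p` of a sum of rays. -/
theorem Dat.sum_p (h : Dat phi D eta Z dl p) (T : Finset (Fin 4)) :
    phi (∑ i ∈ T, Z i) p = if 0 ∈ T then 1 else 0 := by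
  rw [map_sum, Finset.sum_apply]
  rw [← Finset.sum_ite_eq' T (0 : Fin 4) (fun _ => (1 : ℤ))]
  refine Finset.sum_congr rfl fun i _ => ?_
  by_cases hi : i = 0
  · rw [hi, h.p0, if_pos rfl]
  · rw [h.pi i hi, if_neg hi]

/-- The difference `dl 0 i` of a sum of rays. -/
theorem Dat.sum_d (h : Dat phi D eta Z dl p) (T : Finset (Fin 4)) (h0 : 0 ∉ T) (i : Fin 4)
    (hi : i ≠ 0) : dl 0 i (∑ j ∈ T, Z j) = if i ∈ T then -1 else 0 := by
  rw [map_sum]
  rw [← Finset.sum_ite_eq' T i (fun _ => (-1 : ℤ))]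
  refine Finset.sum_congr rfl fun j hj => ?_
  by_cases hji : j = i
  · rw [hji, h.di i hi, if_pos rfl]
  · rw [h.dj i j hi (fun h2 => h0 (h2 ▸ hj)) (Ne.symm hji), if_neg hji]

/-- Translates which are killed by the differences determine the set. -/
theorem Dat.uniq (h : Dat phi D eta Z dl p) {a : L} {T T' : Finset (Fin 4)} (hT : 0 ∉ T)
    (hT' : 0 ∉ T') (h1 : ∀ i j, dl i j (a - ∑ i ∈ T, Z i) = 0)
    (h2 : ∀ i j, dl i j (a - ∑ i ∈ T', Z i) = 0) : T = T' := by
  ext i
  by_cases hi : i = 0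
  · rw [hi]
    exact ⟨fun h3 => absurd h3 hT, fun h3 => absurd h3 hT'⟩
  · have h3 := h1 0 i
    have h4 := h2 0 i
    rw [map_sub, h.sum_d T hT i hi] at h3
    rw [map_sub, h.sum_d T' hT' i hi] at h4
    by_cases h5 : i ∈ T <;> by_cases h6 : i ∈ T'
    · exact ⟨fun _ => h6, fun _ => h5⟩
    · rw [if_pos h5] at h3
      rw [if_neg h6] at h4
      omega
    · rw [if_neg h5] at h3
      rw [if_pos h6] at h4
      omega
    · exact ⟨fun h7 => absurd h7 h5, fun h7 => absurd h7 h6⟩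

/-- The coefficients at the translates of a free element. -/
theorem Dat.coe (h : Dat phi D eta Z dl p) {u : L} (hu : Fr phi Z dl u) (T : Finset (Fin 4))
    (hne : T.Nonempty) (h0 : 0 ∉ T) :
    D.coeff (∑ i ∈ T, Z i + u) = (Del phi D eta Z dl).coeff u *
      ((-1) ^ T.card * ∏ i ∈ T, (((eta (Z i))⁻¹ : (RO O)ˣ) : RO O)) := by
  have h1 := const_of_insert (fun T => (-1) ^ T.card * (∏ i ∈ T, (eta (Z i) : RO O)) *
    D.coeff (∑ i ∈ T, Z i + u)) (by
      intro T i hT h0 hi0 hi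
      obtain ⟨j, hj⟩ := hT
      have h2 := h.fl u T i j 0 hu hi hj h0 (Ne.symm hi0)
      change (-1) ^ (insert i T).card * (∏ i ∈ insert i T, (eta (Z i) : RO O)) *
        D.coeff (∑ i ∈ insert i T, Z i + u) = (-1) ^ T.card * (∏ i ∈ T, (eta (Z i) : RO O)) *
          D.coeff (∑ i ∈ T, Z i + u)
      rw [Finset.card_insert_of_notMem hi, Finset.prod_insert hi]
      linear_combination (-((-1) ^ T.card * (∏ i ∈ T, (eta (Z i) : RO O)))) * h2) _ T rfl hne h0
  have h3 : (-1 : RO O) ^ T.card * (∏ i ∈ T, (eta (Z i) : RO O)) *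
    D.coeff (∑ i ∈ T, Z i + u) = (-1) ^ ({1} : Finset (Fin 4)).card *
      (∏ i ∈ ({1} : Finset (Fin 4)), (eta (Z i) : RO O)) *
        D.coeff (∑ i ∈ ({1} : Finset (Fin 4)), Z i + u) := h1
  rw [Finset.card_singleton, Finset.prod_singleton, Finset.sum_singleton, pow_one] at h3
  rw [Del_coeff phi D eta Z dl u hu]
  have h4 : (∏ i ∈ T, (((eta (Z i))⁻¹ : (RO O)ˣ) : RO O)) * (∏ i ∈ T, (eta (Z i) : RO O)) = 1 := by
    rw [← Finset.prod_mul_distrib]
    exact Finset.prod_eq_one fun i _ => Units.inv_mul _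
  have h5 : ((-1 : RO O) ^ T.card) * (-1) ^ T.card = 1 := by
    rw [← pow_add, ← two_mul, pow_mul, neg_one_sq, one_pow]
  have h6 : -((eta (Z 1) : RO O) * D.coeff (Z 1 + u)) = (-1 : RO O) ^ T.card *
      (∏ i ∈ T, (eta (Z i) : RO O)) * D.coeff (∑ i ∈ T, Z i + u) := by
    rw [h3]
    ring
  rw [h6]
  linear_combination (-(D.coeff (∑ i ∈ T, Z i + u))) * h4 * ((-1 : RO O) ^ T.card) *
    (-1) ^ T.card - (D.coeff (∑ i ∈ T, Z i + u)) * h5

/-- THE IDENTITY. -/
theorem Dat.face (h : Dat phi D eta Z dl p) :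
    gpart (co phi p) 0 D = Gz phi D eta Z dl p + Del phi D eta Z dl * Pr3 eta Z := by
  classical
  apply AddMonoidAlgebra.ext
  apply Finsupp.ext
  intro a
  rw [H96.gpart_coeff, coeff_add, Finsupp.add_apply, Pr3_expand, Finset.mul_sum]
  have hsum : (∑ T ∈ (Finset.univ.erase (0 : Fin 4)).powerset, Del phi D eta Z dl *
      single (∑ i ∈ T, Z i) ((-1) ^ T.card *
        ∏ i ∈ T, (((eta (Z i))⁻¹ : (RO O)ˣ) : RO O))).coeff a =
      ∑ T ∈ (Finset.univ.erase (0 : Fin 4)).powerset,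
        (Del phi D eta Z dl).coeff (a - ∑ i ∈ T, Z i) * ((-1) ^ T.card *
        ∏ i ∈ T, (((eta (Z i))⁻¹ : (RO O)ˣ) : RO O)) := by
    rw [coeff_sum, Finsupp.finsetSum_apply]
    refine Finset.sum_congr rfl fun T _ => ?_
    rw [coeff_mul_single_apply]
    rw [sub_eq_add_neg]
  rw [hsum]
  have hT0 : ∀ T ∈ (Finset.univ.erase (0 : Fin 4)).powerset, (0 : Fin 4) ∉ T := by
    intro T hT h0
    rw [Finset.mem_powerset] at hT
    exact (Finset.mem_erase.mp (hT h0)).1 rfl
  by_cases hex : ∃ T ∈ (Finset.univ.erase (0 : Fin 4)).powerset, Fr phi Z dl (a - ∑ i ∈ T, Z i)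
  · obtain ⟨T, hT, hfr⟩ := hex
    rw [Finset.sum_eq_single T]
    · by_cases hTe : T = ∅
      · subst hTe
        rw [Finset.sum_empty, sub_zero] at hfr ⊢
        have him := h.fr_im hfr
        rw [if_pos (show co phi p a = 0 from him.1), Gz_coeff phi D eta Z dl p a him]
        simp
      · have hne : T.Nonempty := Finset.nonempty_iff_ne_empty.mpr hTe
        have hpa : phi a p = 0 := by
          have h1 := h.fr_p hfr
          rw [map_sub, Pi.sub_apply, h.sum_p, if_neg (hT0 T hT), sub_zero] at h1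
          exact h1
        have him : ¬ IM phi p dl a := by
          intro hi
          have h1 : T = ∅ := h.uniq (a := a) (hT0 T hT) (Finset.notMem_empty _) hfr.2 (by
            intro i j
            rw [Finset.sum_empty, sub_zero]
            exact hi.2 i j)
          exact hTe h1
        rw [if_pos (show co phi p a = 0 from hpa), Gz_not phi D eta Z dl p a him, zero_add]
        have h1 := h.coe hfr T hne (hT0 T hT)
        rw [add_sub_cancel] at h1
        exact h1
    · intro T' hT' hne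
      rw [Del_not, zero_mul]
      intro hfr'
      exact hne (h.uniq (hT0 T' hT') (hT0 T hT) hfr'.2 hfr.2)
    · intro hn
      exact absurd hT hn
  · have hz : ∑ T ∈ (Finset.univ.erase (0 : Fin 4)).powerset,
        (Del phi D eta Z dl).coeff (a - ∑ i ∈ T, Z i) * ((-1) ^ T.card *
        ∏ i ∈ T, (((eta (Z i))⁻¹ : (RO O)ˣ) : RO O)) = 0 := by
      refine Finset.sum_eq_zero fun T hT => ?_
      rw [Del_not, zero_mul]
      intro hfr
      exact hex ⟨T, hT, hfr⟩
    rw [hz, add_zero]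
    have hnf : ¬ Fr phi Z dl a := by
      intro hfr
      refine hex ⟨∅, Finset.empty_mem_powerset _, ?_⟩
      rw [Finset.sum_empty, sub_zero]
      exact hfr
    by_cases him : IM phi p dl a
    · rw [if_pos (show co phi p a = 0 from him.1), Gz_coeff phi D eta Z dl p a him,
        Del_not phi D eta Z dl a hnf, sub_zero]
    · rw [Gz_not phi D eta Z dl p a him]
      by_cases hpa : co phi p a = 0
      · rw [if_pos hpa]
        by_contra hne
        rcases h.nf a hne with h1 | ⟨T, u, -, -, h1, h2⟩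
        · exact him ⟨hpa, h1⟩
        · have h3 : (0 : Fin 4) ∉ T := by
            intro h0
            have h4 : phi a p = 0 := hpa
            rw [h1, map_add, Pi.add_apply, h.sum_p, if_pos h0, h.fr_p h2] at h4
            norm_num at h4
          refine hex ⟨T, ?_, ?_⟩
          · rw [Finset.mem_powerset]
            intro i hi
            exact Finset.mem_erase.mpr ⟨fun h4 => h3 (h4 ▸ hi), Finset.mem_univ _⟩
          · rw [h1, add_sub_cancel_left]
            exact h2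
      · rw [if_neg hpa]

end

end Pool.Agent.B5.H02
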