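import Pool.Agent.Lib.MP_b5021c_nt.E.H02.DtiB

/-!
# Board b5, row AM_DTI: the functional and the zero-free domain
-/

set_option linter.unusedSectionVars false

namespace Pool.Agent.B5.H02

open scoped LaurentPolynomial
open AddMonoidAlgebra

section

variable {O : Type} [CommRing O] [IsDomain O] [IsPrincipalIdealRing O] [Coef O] {P : Type}
  [Fintype P] [DecidableEq P] {L : Type} [AddCommGroup L] [Module.Free ℤ L] [Module.Finite ℤ L]

variable {phi : L →+ (P → ℤ)} {D : AO O L} {eta : L → (RO O)ˣ} {Z : Fin 4 → L}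
  {dl : Fin 4 → Fin 4 → L →+ ℤ} {p : P}

/-- The span of `Z 1`, `Z 2`, `Z 3`. -/
noncomputable def K3 (Z : Fin 4 → L) : Submodule ℤ L :=
  LinearMap.range (Fintype.linearCombination ℤ (fun i : Fin 3 => Z i.succ))

theorem mem_K3 {Z : Fin 4 → L} {x : L} : x ∈ K3 Z ↔ ∃ k : Fin 3 → ℤ, x = ∑ i, k i • Z i.succ := by
  constructor
  · rintro ⟨k, hk⟩
    exact ⟨k, by rw [← hk, Fintype.linearCombination_apply]⟩
  · rintro ⟨k, hk⟩
    exact ⟨k, by rw [hk, Fintype.linearCombination_apply]⟩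

theorem Z_mem_K3 (Z : Fin 4 → L) (i : Fin 4) (hi : i ≠ 0) : Z i ∈ K3 Z := by
  obtain ⟨j, rfl⟩ := Fin.exists_succ_eq.mpr hi
  refine ⟨Pi.single j 1, ?_⟩
  rw [Fintype.linearCombination_apply]
  rw [Finset.sum_eq_single j]
  · rw [Pi.single_eq_same, one_smul]
  · intro b _ hb
    rw [Pi.single_eq_of_ne hb, zero_smul]
  · intro hn
    exact absurd (Finset.mem_univ j) hn

theorem Dat.K3_zero (h : Dat phi D eta Z dl p) {x : L} (hx : x ∈ K3 Z)
    (hd : ∀ i, i ≠ 0 → dl 0 i x = 0) : x = 0 := by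
  obtain ⟨k, hk⟩ := mem_K3.mp hx
  have h1 : ∀ j : Fin 3, k j = 0 := by
    intro j
    have h2 := hd j.succ (Fin.succ_ne_zero j)
    rw [hk, map_sum, Finset.sum_eq_single j] at h2
    · rw [map_zsmul, h.di _ (Fin.succ_ne_zero j), smul_eq_mul] at h2
      omega
    · intro b _ hb
      rw [map_zsmul, h.dj _ _ (Fin.succ_ne_zero j) (Fin.succ_ne_zero b)
        (fun h3 => hb (Fin.succ_injective _ h3.symm)), smul_zero]
    · intro hn
      exact absurd (Finset.mem_univ j) hn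
  rw [hk]
  exact Finset.sum_eq_zero fun i _ => by rw [h1 i, zero_smul]

theorem Dat.K3_p (h : Dat phi D eta Z dl p) {x : L} (hx : x ∈ K3 Z) : phi x p = 0 := by
  obtain ⟨k, hk⟩ := mem_K3.mp hx
  rw [hk, map_sum, Finset.sum_apply]
  refine Finset.sum_eq_zero fun i _ => ?_
  rw [map_zsmul, Pi.smul_apply, h.pi _ (Fin.succ_ne_zero i), smul_zero]

/-- The functional. -/
theorem Dat.functional (hD2 : D2S) (hRS : RaySpanS) (h : Dat phi D eta Z dl p)
    (hth : Thin (supp D)) (hpos : ∃ lam : L →+ ℤ, Pos lam D)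
    (hoth : ∀ i T, i ≠ 0 → Ray D T → T ≠ Z 0 → T ≠ Z i → dl 0 i T = 0) :
    ∃ lam : L →+ ℤ, (∀ i, i ≠ 0 → lam (Z i) = 0) ∧ (∀ a ∈ supp D, 0 ≤ lam a) ∧
      ∀ a ∈ supp D, a ≠ 0 → lam a = 0 → ∃ n : ℕ, 0 < n ∧ n • a ∈ K3 Z := by
  classical
  obtain ⟨lam0, hlam0⟩ := hpos
  set S : Finset L := D.coeff.support.filter (fun a => Ray D a ∧ ∀ i, i ≠ 0 → a ≠ Z i) with hS
  have hSm : ∀ a, a ∈ S ↔ a ∈ supp D ∧ Ray D a ∧ ∀ i, i ≠ 0 → a ≠ Z i := by
    intro a
    rw [hS, Finset.mem_filter, Finsupp.mem_support_iff]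
    rfl
  rcases hD2 L S (K3 Z) with ⟨lam, hl1, hl2⟩ | ⟨c, ⟨a0, ha0, hca0⟩, hc⟩
  · have hray : ∀ b, Ray D b → 0 ≤ lam b ∧ (lam b = 0 → b ∈ K3 Z) := by
      intro b hb
      by_cases hbi : ∃ i, i ≠ 0 ∧ b = Z i
      · obtain ⟨i, hi, rfl⟩ := hbi
        exact ⟨(hl1 _ (Z_mem_K3 Z i hi)).ge, fun _ => Z_mem_K3 Z i hi⟩
      · push Not at hbi
        have h1 := hl2 b ((hSm b).mpr ⟨hb.1, hb, hbi⟩)
        exact ⟨h1.le, fun h2 => absurd h2 h1.ne'⟩
    have hcl : ∀ x ∈ AddSubmonoid.closure {b | Ray D b}, 0 ≤ lam x ∧ (lam x = 0 → x ∈ K3 Z) := by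
      intro x hx
      induction hx using AddSubmonoid.closure_induction with
      | mem x hx => exact hray x hx
      | zero => exact ⟨by rw [map_zero], fun _ => (K3 Z).zero_mem⟩
      | add x y _ _ hx hy =>
        refine ⟨by rw [map_add]; exact add_nonneg hx.1 hy.1, fun h0 => ?_⟩
        rw [map_add] at h0
        have h1 := hx.1
        have h2 := hy.1
        exact (K3 Z).add_mem (hx.2 (by omega)) (hy.2 (by omega))
    have hkey : ∀ a ∈ supp D, a ≠ 0 → ∃ n : ℕ, 0 < n ∧ 0 ≤ lam a ∧ (lam a = 0 → n • a ∈ K3 Z) := by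
      intro a ha ha0
      obtain ⟨n, hn, hmem⟩ := (hRS O L D ⟨lam0, hlam0⟩ hth).1 a ha ha0
      obtain ⟨h1, h2⟩ := hcl _ hmem
      rw [map_nsmul, nsmul_eq_mul] at h1 h2
      refine ⟨n, hn, ?_, fun h3 => h2 (by rw [h3, mul_zero])⟩
      by_contra hneg
      push Not at hneg
      have : (n : ℤ) * lam a < 0 := mul_neg_of_pos_of_neg (by exact_mod_cast hn) hneg
      omega
    refine ⟨lam, fun i hi => hl1 _ (Z_mem_K3 Z i hi), ?_, ?_⟩
    · intro a ha
      by_cases h0 : a = 0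
      · rw [h0, map_zero]
      · obtain ⟨n, _, h1, _⟩ := hkey a ha h0
        exact h1
    · intro a ha ha0 h0
      obtain ⟨n, hn, _, h1⟩ := hkey a ha ha0
      exact ⟨n, hn, h1 h0⟩
  · exfalso
    have hp1 : ∑ a ∈ S, (c a : ℤ) * phi a p = 0 := by
      have h1 := h.K3_p hc
      rw [map_sum, Finset.sum_apply] at h1
      rw [← h1]
      refine Finset.sum_congr rfl fun a _ => ?_
      rw [map_nsmul, Pi.smul_apply, nsmul_eq_mul]
    have hp2 : ∀ a ∈ S, (c a : ℤ) * phi a p = 0 := by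
      refine (Finset.sum_eq_zero_iff_of_nonneg ?_).mp hp1
      intro a ha
      have h1 := h.bin a ((hSm a).mp ha).1 p
      refine mul_nonneg (by positivity) ?_
      omega
    have hx0 : ∑ a ∈ S, c a • a = 0 := by
      refine h.K3_zero hc fun i hi => ?_
      rw [map_sum]
      refine Finset.sum_eq_zero fun a ha => ?_
      rw [map_nsmul, nsmul_eq_mul]
      by_cases haz : a = Z 0
      · have h1 := hp2 a ha
        rw [haz, h.p0, mul_one] at h1
        rw [haz, h1, zero_mul]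
      · rw [hoth i a hi ((hSm a).mp ha).2.1 haz (((hSm a).mp ha).2.2 i hi), mul_zero]
    have h3 : ∑ a ∈ S, (c a : ℤ) * lam0 a = 0 := by
      have h1 := congrArg lam0 hx0
      rw [map_sum, map_zero] at h1
      rw [← h1]
      refine Finset.sum_congr rfl fun a _ => ?_
      rw [map_nsmul, nsmul_eq_mul]
    have hlp : ∀ a ∈ S, 0 < lam0 a := fun a ha =>
      hlam0 a (Finsupp.mem_support_iff.mpr ((hSm a).mp ha).1) ((hSm a).mp ha).2.1.2.1
    have h4 := (Finset.sum_eq_zero_iff_of_nonneg (fun a ha =>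
      mul_nonneg (by positivity) (hlp a ha).le)).mp h3 a0 ha0
    rcases mul_eq_zero.mp h4 with h5 | h5
    · exact hca0 (by exact_mod_cast h5)
    · exact absurd h5 (hlp a0 ha0).ne'

/-- The properties of the functional. -/
structure Lam (phi : L →+ (P → ℤ)) (D : AO O L) (Z : Fin 4 → L) (dl : Fin 4 → Fin 4 → L →+ ℤ)
    (lam : L →+ ℤ) : Prop where
  z : ∀ i, i ≠ 0 → lam (Z i) = 0
  nn : ∀ a ∈ supp D, 0 ≤ lam a
  k3 : ∀ a ∈ supp D, a ≠ 0 → lam a = 0 → ∃ n : ℕ, 0 < n ∧ n • a ∈ K3 Z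

theorem smul_zero_of {L : Type} [AddCommGroup L] [Module.Free ℤ L] [Module.Finite ℤ L] {n : ℕ}
    (hn : 0 < n) {a : L} (h : n • a = 0) : a = 0 := by
  have h1 : (n : ℤ) • a = 0 := by rw [natCast_zsmul]; exact h
  exact (smul_eq_zero.mp h1).resolve_left (by exact_mod_cast hn.ne')

theorem Lam.im {lam : L →+ ℤ} (hl : Lam phi D Z dl lam) (h : Dat phi D eta Z dl p) {a : L}
    (ha : a ∈ supp D) (hd : ∀ i j, dl i j a = 0) (h0 : a ≠ 0) : 0 < lam a := by
  refine lt_of_le_of_ne (hl.nn a ha) fun h1 => h0 ?_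
  obtain ⟨n, hn, hm⟩ := hl.k3 a ha h0 h1.symm
  exact smul_zero_of hn (h.K3_zero hm fun i _ => by rw [map_nsmul, hd, smul_zero])

theorem Lam.fr {lam : L →+ ℤ} (hl : Lam phi D Z dl lam) (h : Dat phi D eta Z dl p) {u : L}
    (hu : Fr phi Z dl u) (hD : Z 1 + u ∈ supp D) (h0 : u ≠ 0) : 0 < lam u := by
  have h1 : lam (Z 1 + u) = lam u := by rw [map_add, hl.z 1 (by decide), zero_add]
  have h2 := hl.nn _ hD
  rw [h1] at h2
  refine lt_of_le_of_ne h2 fun h3 => h0 ?_
  have hne : Z 1 + u ≠ 0 := by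
    intro h4
    have h5 := congrArg (dl 0 1) h4
    rw [map_add, h.di 1 (by decide), hu.2, map_zero] at h5
    norm_num at h5
  obtain ⟨n, hn, hm⟩ := hl.k3 _ hD hne (by rw [h1]; exact h3.symm)
  have h6 : n • u ∈ K3 Z := by
    have h7 : n • u = n • (Z 1 + u) - n • Z 1 := by rw [smul_add, add_sub_cancel_left]
    rw [h7]
    exact (K3 Z).sub_mem hm (nsmul_mem (Z_mem_K3 Z 1 (by decide)) n)
  exact smul_zero_of hn (h.K3_zero h6 fun i _ => by rw [map_nsmul, hu.2, smul_zero])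

/-- Supports. -/
theorem Del_supp {u : L} (hu : (Del phi D eta Z dl).coeff u ≠ 0) :
    Fr phi Z dl u ∧ Z 1 + u ∈ supp D := by
  by_cases hf : Fr phi Z dl u
  · refine ⟨hf, fun h0 => hu ?_⟩
    rw [Del_coeff _ _ _ _ _ _ hf, h0, mul_zero, neg_zero]
  · exact absurd (Del_not _ _ _ _ _ _ hf) hu

theorem Gz_supp {a : L} (ha : (Gz phi D eta Z dl p).coeff a ≠ 0) :
    IM phi p dl a ∧ (a ∈ supp D ∨ (Del phi D eta Z dl).coeff a ≠ 0) := by
  by_cases him : IM phi p dl a
  · refine ⟨him, ?_⟩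
    rw [Gz_coeff _ _ _ _ _ _ _ him] at ha
    by_contra hne
    rw [not_or, not_not] at hne
    apply ha
    have h1 : D.coeff a = 0 := by
      by_contra h2
      exact hne.1 h2
    rw [h1, hne.2, sub_zero]
  · exact absurd (Gz_not _ _ _ _ _ _ _ him) ha

theorem Lam.del_pos {lam : L →+ ℤ} (hl : Lam phi D Z dl lam) (h : Dat phi D eta Z dl p) :
    Pos lam (Del phi D eta Z dl) := by
  intro a ha h0
  obtain ⟨h1, h2⟩ := Del_supp (Finsupp.mem_support_iff.mp ha)
  exact hl.fr h h1 h2 h0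

theorem Lam.gz_pos {lam : L →+ ℤ} (hl : Lam phi D Z dl lam) (h : Dat phi D eta Z dl p) :
    Pos lam (Gz phi D eta Z dl p) := by
  intro a ha h0
  obtain ⟨h1, h2 | h2⟩ := Gz_supp (Finsupp.mem_support_iff.mp ha)
  · exact hl.im h h2 h1.2 h0
  · exact hl.del_pos h a (Finsupp.mem_support_iff.mpr h2) h0

theorem nn_of_pos {lam : L →+ ℤ} {G : AO O L} (h : Pos lam G) : ∀ a ∈ supp G, 0 ≤ lam a := by
  intro a ha
  by_cases h0 : a = 0
  · rw [h0, map_zero]
  · exact (h a (Finsupp.mem_support_iff.mpr ha) h0).le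

theorem spec_supp {z : Circle} {G : AO O L} {a : L} (ha : a ∈ (spec z G).coeff.support) :
    a ∈ supp G := by
  intro h0
  rw [Finsupp.mem_support_iff, spec_coeff, h0, map_zero] at ha
  exact ha rfl

theorem Pr3_eq (eta : L → (RO O)ˣ) (Z : Fin 4 → L) :
    (Pr3 eta Z : AO O L) = (1 - single (Z 1) (((eta (Z 1))⁻¹ : (RO O)ˣ) : RO O)) *
      (1 - single (Z 2) (((eta (Z 2))⁻¹ : (RO O)ˣ) : RO O)) *
      (1 - single (Z 3) (((eta (Z 3))⁻¹ : (RO O)ˣ) : RO O)) := by
  have h1 : Finset.univ.erase (0 : Fin 4) = {1, 2, 3} := by decide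
  unfold Pr3
  rw [h1, Finset.prod_insert (by decide), Finset.prod_insert (by decide), Finset.prod_singleton,
    mul_assoc]

/-- THE ZERO-FREE DOMAIN. -/
theorem Dat.zf (hM : MultiS) (hSS : StSpecS) (hFa : FaceS) (hEv : EvRS)
    (h : Dat phi D eta Z dl p) (hst : Stable D) {lam : L →+ ℤ} (hl : Lam phi D Z dl lam)
    (z : Circle) (hz : evR z (D.coeff 0) ≠ 0) (u : AddChar L Circle) (s c : ℂ) (hs : ‖s‖ < 1)
    (hc : ‖1 - c‖ < 1) :
    (sl u lam (spec z (Gz phi D eta Z dl p))).eval s +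
      (sl u lam (spec z (Del phi D eta Z dl))).eval s * c ^ 3 ≠ 0 := by
  classical
  have hNp : Nn (co phi p) D := by
    intro a ha
    have h1 : phi a p = 0 ∨ phi a p = 1 := h.bin a (Finsupp.mem_support_iff.mp ha) p
    change 0 ≤ phi a p
    omega
  have hgs := (hFa O L D (co phi p) hst hNp).1
  set G' : AO O L := gpart (co phi p) 0 D with hG'
  have hG0 : G'.coeff 0 = D.coeff 0 := by
    rw [hG', H96.gpart_coeff, if_pos (map_zero _)]
  have hG's : ∀ a ∈ supp G', a ∈ supp D ∧ phi a p = 0 := by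
    intro a ha
    have h1 : G'.coeff a ≠ 0 := ha
    rw [hG', H96.gpart_coeff] at h1
    by_cases hp : co phi p a = 0
    · rw [if_pos hp] at h1
      exact ⟨h1, hp⟩
    · rw [if_neg hp] at h1
      exact absurd rfl h1
  have hSC : StableC (spec z G') := (hSS O L G').1 hgs z (by rw [hG0]; exact hz)
  -- values of the differences
  have hval : ∀ a ∈ supp G', (∀ i j, dl i j a = 0) ∨
      ((∀ i, i ≠ 0 → dl 0 i a = 0 ∨ dl 0 i a = -1) ∧ ∃ i, i ≠ 0 ∧ dl 0 i a = -1) := by
    intro a ha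
    obtain ⟨h1, h2⟩ := hG's a ha
    rcases h.nf a h1 with h3 | ⟨T, v, hT, -, h4, h5⟩
    · exact Or.inl h3
    · right
      have h6 : (0 : Fin 4) ∉ T := by
        intro h0
        rw [h4, map_add, Pi.add_apply, h.sum_p, if_pos h0, h.fr_p h5] at h2
        norm_num at h2
      have h7 : ∀ i, i ≠ 0 → dl 0 i a = if i ∈ T then -1 else 0 := by
        intro i hi
        rw [h4, map_add, h5.2, add_zero, h.sum_d T h6 i hi]
      refine ⟨fun i hi => ?_, ?_⟩
      · rw [h7 i hi]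
        by_cases hiT : i ∈ T
        · right; rw [if_pos hiT]
        · left; rw [if_neg hiT]
      · obtain ⟨i, hi⟩ := Finset.nonempty_iff_ne_empty.mpr hT
        have hi0 : i ≠ 0 := fun h8 => h6 (h8 ▸ hi)
        exact ⟨i, hi0, by rw [h7 i hi0, if_pos hi]⟩
  set y : Fin 4 → ℂ := fun i => (1 - c) * (evR z (eta (Z i) : RO O) * ((u (Z i) : Circle) : ℂ)⁻¹)
    with hy
  set mu : Fin 4 → L →+ ℤ := fun i => if i = 0 then lam else -dl 0 i with hmu
  set t : Fin 4 → ℂ := fun i => if i = 0 then s else y i with ht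
  have hmu0 : mu 0 = lam := by rw [hmu]; simp
  have hmui : ∀ i, i ≠ 0 → ∀ a, mu i a = -dl 0 i a := by
    intro i hi a
    rw [hmu]
    simp only [if_neg hi]
    rfl
  have hee : ∀ i, ‖evR z (eta (Z i) : RO O)‖ = 1 := fun i => (hEv O).2.1 z _ (eta (Z i)).isUnit
  have hty : ∀ i, ‖y i‖ = ‖1 - c‖ := by
    intro i
    rw [hy]
    simp only [norm_mul, norm_inv, Circle.norm_coe, hee i, inv_one, mul_one]
  have htn : ∀ i, ‖t i‖ < 1 := by
    intro i
    rw [ht]
    by_cases hi : i = 0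
    · simp only [if_pos hi]
      exact hs
    · simp only [if_neg hi]
      rw [hty i]
      exact hc
  have hlG : ∀ a ∈ supp G', 0 ≤ lam a := fun a ha => hl.nn a (hG's a ha).1
  have hNn : ∀ i, Nn (mu i) (spec z G') := by
    intro i a ha
    have ha' := spec_supp ha
    by_cases hi : i = 0
    · rw [hi, hmu0]
      exact hlG a ha'
    · rw [hmui i hi]
      rcases hval a ha' with h1 | ⟨h1, -⟩
      · rw [h1, neg_zero]
      · rcases h1 i hi with h2 | h2 <;> rw [h2] <;> norm_num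
  have hsum : ∀ a ∈ (spec z G').coeff.support, a ≠ 0 → 0 < ∑ i, mu i a := by
    intro a ha h0
    have ha' := spec_supp ha
    have hnn : ∀ i ∈ Finset.univ, 0 ≤ mu i a := fun i _ => hNn i a ha
    rcases hval a ha' with h1 | ⟨h1, i, hi, h2⟩
    · refine Finset.sum_pos' hnn ⟨0, Finset.mem_univ _, ?_⟩
      rw [hmu0]
      exact hl.im h (hG's a ha').1 h1 h0
    · refine Finset.sum_pos' hnn ⟨i, Finset.mem_univ _, ?_⟩
      rw [hmui i hi, h2]
      norm_num
  have hmain := hM L (spec z G') hSC (Fin 4) mu hNn hsum u t htn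
  -- evaluation
  have hev : ∀ F : AO O L, (∀ a ∈ supp F, ∀ i j, dl i j a = 0) →
      mev u mu t (spec z F) = (sl u lam (spec z F)).eval s := by
    intro F hF
    let f : AO O L →+ ℂ :=
      { toFun := fun F => mev u mu t (spec z F)
        map_zero' := by rw [map_zero, H83.mev_zero]
        map_add' := fun p q => by rw [map_add, H83.mev_add] }
    let g : AO O L →+ ℂ :=
      { toFun := fun F => (sl u lam (spec z F)).eval s
        map_zero' := by rw [map_zero, H83.sl_zero, Polynomial.eval_zero]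
        map_add' := fun p q => by rw [map_add, H83.sl_add, Polynomial.eval_add] }
    refine H83.eq_of_single f g F (fun a ha => ?_)
    change mev u mu t (spec z (single a (F.coeff a))) =
      (sl u lam (spec z (single a (F.coeff a)))).eval s
    rw [H83.spec_single, H83.mev_single, H83.sl_single, Polynomial.eval_monomial,
      Finset.prod_eq_single (0 : Fin 4)]
    · rw [hmu0]
      have : t 0 = s := by rw [ht]; simp
      rw [this]
    · intro i _ hi
      rw [hmui i hi, hF a ha, neg_zero, Int.toNat_zero, pow_zero]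
    · intro hn
      exact absurd (Finset.mem_univ _) hn
  have hx : ∀ i, i ≠ 0 → spec z (1 - single (Z i) (((eta (Z i))⁻¹ : (RO O)ˣ) : RO O) : AO O L) =
      single 0 1 + single (Z i) (-evR z (((eta (Z i))⁻¹ : (RO O)ˣ) : RO O)) := by
    intro i _
    rw [map_sub, map_one, H83.spec_single, single_neg, sub_eq_add_neg]
    rfl
  have hmuZ : ∀ i, i ≠ 0 → ∀ j, mu j (Z i) = if j = i then 1 else 0 := by
    intro i hi j
    by_cases hj : j = 0
    · rw [hj, hmu0, hl.z i hi, if_neg (Ne.symm hi)]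
    · rw [hmui j hj]
      by_cases hji : j = i
      · rw [hji, h.di i hi, if_pos rfl]
        norm_num
      · rw [h.dj j i hj hi hji, if_neg hji, neg_zero]
  have hxm : ∀ i, i ≠ 0 → mev u mu t
      (spec z (1 - single (Z i) (((eta (Z i))⁻¹ : (RO O)ˣ) : RO O) : AO O L)) = c := by
    intro i hi
    rw [hx i hi, H83.mev_add, H83.mev_single, H83.mev_single]
    have h1 : ∏ j, t j ^ (mu j (Z i)).toNat = y i := by
      rw [Finset.prod_eq_single i]
      · rw [hmuZ i hi, if_pos rfl, Int.toNat_one, pow_one, ht]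
        simp only [if_neg hi]
      · intro j _ hj
        rw [hmuZ i hi, if_neg hj, Int.toNat_zero, pow_zero]
      · intro hn
        exact absurd (Finset.mem_univ _) hn
    have h2 : ∏ j, t j ^ (mu j (0 : L)).toNat = 1 := by
      refine Finset.prod_eq_one fun j _ => ?_
      rw [map_zero, Int.toNat_zero, pow_zero]
    rw [h1, h2, AddChar.map_zero_eq_one, Circle.coe_one, hy]
    have h3 : evR z (((eta (Z i))⁻¹ : (RO O)ˣ) : RO O) * evR z (eta (Z i) : RO O) = 1 := by
      rw [← map_mul, Units.inv_mul, map_one]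
    have h4 : ((u (Z i) : Circle) : ℂ) * ((u (Z i) : Circle) : ℂ)⁻¹ = 1 :=
      mul_inv_cancel₀ (Circle.coe_ne_zero _)
    linear_combination (-(1 - c) * ((u (Z i) : Circle) : ℂ) * ((u (Z i) : Circle) : ℂ)⁻¹) * h3 -
      (1 - c) * h4
  have hxn : ∀ i, i ≠ 0 → ∀ j, Nn (mu j)
      (spec z (1 - single (Z i) (((eta (Z i))⁻¹ : (RO O)ˣ) : RO O) : AO O L)) := by
    intro i hi j a ha
    rw [hx i hi] at ha
    by_cases h0 : a = 0
    · rw [h0, map_zero]
    · have h1 : a = Z i := by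
        by_contra hne
        rw [Finsupp.mem_support_iff, coeff_add, Finsupp.add_apply, coeff_single, coeff_single,
          Finsupp.single_apply, Finsupp.single_apply, if_neg (Ne.symm h0), if_neg (Ne.symm hne),
          add_zero] at ha
        exact ha rfl
      rw [h1, hmuZ i hi]
      split_ifs <;> norm_num
  have hdn : ∀ j, Nn (mu j) (spec z (Del phi D eta Z dl)) := by
    intro j a ha
    have ha' := spec_supp ha
    by_cases hj : j = 0
    · rw [hj, hmu0]
      exact nn_of_pos (hl.del_pos h) a ha'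
    · rw [hmui j hj, (Del_supp ha').1.2, neg_zero]
  have h12 := nn_mul_all mu _ _ (hxn 1 (by decide)) (hxn 2 (by decide))
  have h123 := nn_mul_all mu _ _ h12 (hxn 3 (by decide))
  rw [hG', h.face, Pr3_eq, map_add, map_mul, map_mul, map_mul, H83.mev_add,
    mev_mul u mu t _ _ hdn h123, mev_mul u mu t _ _ h12 (hxn 3 (by decide)),
    mev_mul u mu t _ _ (hxn 1 (by decide)) (hxn 2 (by decide)), hxm 1 (by decide),
    hxm 2 (by decide), hxm 3 (by decide), hev _ (fun a ha => (Gz_supp ha).1.2),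
    hev _ (fun a ha => (Del_supp ha).1.2)] at hmain
  intro hcon
  apply hmain
  rw [← hcon]
  ring

end

end Pool.Agent.B5.H02
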