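import Pool.Agent.Lib.MP_b5021c_nt.E.H02.DtiC
import Pool.Agent.Lib.MP_b5021c_nt.K.H97.Cir

/-!
# Board b5, row AM_DTI: the element `G - t d` in one more variable
-/

set_option linter.unusedSectionVars false

namespace Pool.Agent.B5.H02

open scoped LaurentPolynomial
open AddMonoidAlgebra

section

variable {O : Type} [CommRing O] {L : Type} [AddCommGroup L]

/-- The inclusion `AO O L → AO O (L × ℤ)`. -/
noncomputable def il : AO O L →+* AO O (L × ℤ) :=
  AddMonoidAlgebra.mapDomainRingHom (RO O) (AddMonoidHom.inl L ℤ)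

/-- `G - t d`. -/
noncomputable def Ft (G d : AO O L) : AO O (L × ℤ) := il G + mon ((0 : L), (1 : ℤ)) * il (-d)

theorem il_single (a : L) (q : RO O) : il (single a q : AO O L) = single (a, 0) q := by
  unfold il
  rw [mapDomainRingHom_apply, mapDomain_single]
  rfl

theorem inl_inj : Function.Injective (AddMonoidHom.inl L ℤ) := by
  intro x y hxy
  have h1 : ((x, 0) : L × ℤ) = (y, 0) := hxy
  exact (Prod.mk.injEq _ _ _ _ ▸ h1).1

theorem il_coeff (G : AO O L) (a : L) (k : ℤ) :
    (il G).coeff (a, k) = if k = 0 then G.coeff a else 0 := by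
  by_cases hk : k = 0
  · subst hk
    rw [if_pos rfl]
    exact Finsupp.mapDomain_apply inl_inj G.coeff a
  · rw [if_neg hk]
    refine Finsupp.mapDomain_of_notMem_range (f := AddMonoidHom.inl L ℤ) G.coeff (a, k) ?_
    rintro ⟨b, hb⟩
    have h1 : ((b, 0) : L × ℤ) = (a, k) := hb
    rw [Prod.mk.injEq] at h1
    exact hk h1.2.symm

theorem Ft_coeff (G d : AO O L) (a : L) (k : ℤ) :
    (Ft G d).coeff (a, k) = if k = 0 then G.coeff a else if k = 1 then -d.coeff a else 0 := by
  unfold Ft mon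
  rw [coeff_add, Finsupp.add_apply, coeff_single_mul_apply, one_mul, il_coeff]
  have h1 : -((0 : L), (1 : ℤ)) + (a, k) = (a, k - 1) := by
    ext
    · simp
    · simp
      ring
  rw [h1, il_coeff, coeff_neg, Finsupp.neg_apply]
  by_cases h0 : k = 0
  · rw [if_pos h0, if_pos h0, if_neg (by omega), add_zero]
  · rw [if_neg h0, if_neg h0, zero_add]
    by_cases h2 : k = 1
    · rw [if_pos h2, if_pos (by omega)]
    · rw [if_neg h2, if_neg (by omega)]

theorem Ft_supp (G d : AO O L) (x : L × ℤ) :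
    x ∈ supp (Ft G d) ↔ (x.2 = 0 ∧ x.1 ∈ supp G) ∨ (x.2 = 1 ∧ x.1 ∈ supp d) := by
  obtain ⟨a, k⟩ := x
  change (Ft G d).coeff (a, k) ≠ 0 ↔ (k = 0 ∧ G.coeff a ≠ 0) ∨ (k = 1 ∧ d.coeff a ≠ 0)
  rw [Ft_coeff]
  by_cases h0 : k = 0
  · rw [if_pos h0]
    constructor
    · intro h
      exact Or.inl ⟨h0, h⟩
    · rintro (⟨_, h⟩ | ⟨h1, _⟩)
      · exact h
      · omega
  · rw [if_neg h0]
    by_cases h1 : k = 1
    · rw [if_pos h1, neg_ne_zero]
      constructor
      · intro h
        exact Or.inr ⟨h1, h⟩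
      · rintro (⟨h2, _⟩ | ⟨_, h⟩)
        · exact absurd h2 h0
        · exact h
    · rw [if_neg h1]
      constructor
      · intro h
        exact absurd rfl h
      · rintro (⟨h2, _⟩ | ⟨h2, _⟩)
        · exact absurd h2 h0
        · exact absurd h2 h1

end

section

variable {O : Type} [CommRing O] [Coef O] {L : Type} [AddCommGroup L]

/-- Slices of `il G`. -/
theorem sl_il (v : AddChar (L × ℤ) Circle) (mu : L × ℤ →+ ℤ) (z : Circle) (G : AO O L) (s : ℂ) :
    (sl v mu (spec z (il G))).eval s =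
      (sl (v.compAddMonoidHom (AddMonoidHom.inl L ℤ)) (mu.comp (AddMonoidHom.inl L ℤ))
        (spec z G)).eval s := by
  let f : AO O L →+ ℂ :=
    { toFun := fun G => (sl v mu (spec z (il G))).eval s
      map_zero' := by rw [map_zero, map_zero, H83.sl_zero, Polynomial.eval_zero]
      map_add' := fun p q => by rw [map_add, map_add, H83.sl_add, Polynomial.eval_add] }
  let g : AO O L →+ ℂ :=
    { toFun := fun G => (sl (v.compAddMonoidHom (AddMonoidHom.inl L ℤ))
        (mu.comp (AddMonoidHom.inl L ℤ)) (spec z G)).eval s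
      map_zero' := by rw [map_zero, H83.sl_zero, Polynomial.eval_zero]
      map_add' := fun p q => by rw [map_add, H83.sl_add, Polynomial.eval_add] }
  refine H83.eq_of_single f g G (fun a ha => ?_)
  change (sl v mu (spec z (il (single a (G.coeff a))))).eval s =
    (sl (v.compAddMonoidHom (AddMonoidHom.inl L ℤ)) (mu.comp (AddMonoidHom.inl L ℤ))
      (spec z (single a (G.coeff a)))).eval s
  rw [il_single, H83.spec_single, H83.spec_single, H83.sl_single, H83.sl_single,
    Polynomial.eval_monomial, Polynomial.eval_monomial]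
  rfl

/-- The functional `lam a + k`. -/
def lt (lam : L →+ ℤ) : L × ℤ →+ ℤ := lam.coprod (AddMonoidHom.id ℤ)

theorem lt_apply (lam : L →+ ℤ) (a : L) (k : ℤ) : lt lam (a, k) = lam a + k := by
  unfold lt
  rw [AddMonoidHom.coprod_apply]
  rfl

theorem lt_comp (lam : L →+ ℤ) : (lt lam).comp (AddMonoidHom.inl L ℤ) = lam := by
  ext a
  change lt lam (a, 0) = lam a
  rw [lt_apply, add_zero]

theorem sl_mon_il (v : AddChar (L × ℤ) Circle) (lam : L →+ ℤ) (z : Circle) (G : AO O L)
    (hG : ∀ a ∈ supp G, 0 ≤ lam a) (s : ℂ) :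
    (sl v (lt lam) (spec z (mon ((0 : L), (1 : ℤ)) * il G))).eval s =
      s * ((v ((0 : L), (1 : ℤ)) : Circle) : ℂ) *
        (sl (v.compAddMonoidHom (AddMonoidHom.inl L ℤ)) lam (spec z G)).eval s := by
  let f : AO O L →+ ℂ :=
    { toFun := fun G => (sl v (lt lam) (spec z (mon ((0 : L), (1 : ℤ)) * il G))).eval s
      map_zero' := by rw [map_zero, mul_zero, map_zero, H83.sl_zero, Polynomial.eval_zero]
      map_add' := fun p q => by
        rw [map_add, mul_add, map_add, H83.sl_add, Polynomial.eval_add] }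
  let g : AO O L →+ ℂ :=
    { toFun := fun G => s * ((v ((0 : L), (1 : ℤ)) : Circle) : ℂ) *
        (sl (v.compAddMonoidHom (AddMonoidHom.inl L ℤ)) lam (spec z G)).eval s
      map_zero' := by rw [map_zero, H83.sl_zero, Polynomial.eval_zero, mul_zero]
      map_add' := fun p q => by rw [map_add, H83.sl_add, Polynomial.eval_add, mul_add] }
  refine H83.eq_of_single f g G (fun a ha => ?_)
  change (sl v (lt lam) (spec z (mon ((0 : L), (1 : ℤ)) * il (single a (G.coeff a))))).eval s =
    s * ((v ((0 : L), (1 : ℤ)) : Circle) : ℂ) *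
      (sl (v.compAddMonoidHom (AddMonoidHom.inl L ℤ)) lam (spec z (single a (G.coeff a)))).eval s
  rw [il_single, mon, single_mul_single, one_mul, H83.spec_single, H83.spec_single,
    H83.sl_single, H83.sl_single, Polynomial.eval_monomial, Polynomial.eval_monomial]
  have h1 : ((0 : L), (1 : ℤ)) + (a, 0) = (a, 1) := by
    ext
    · simp
    · simp
  have h2 : v (a, 1) = v (AddMonoidHom.inl L ℤ a) * v ((0 : L), (1 : ℤ)) := by
    rw [← AddChar.map_add_eq_mul]
    congr 1
    ext
    · simp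
    · simp
  have h3 : (lam a + 1).toNat = (lam a).toNat + 1 := by
    have := hG a ha
    omega
  rw [h1, lt_apply, h2, Circle.coe_mul, h3, pow_succ]
  change _ = s * _ * (evR z (G.coeff a) * ((v (AddMonoidHom.inl L ℤ a) : Circle) : ℂ) *
    s ^ (lam a).toNat)
  ring

theorem sl_Ft (v : AddChar (L × ℤ) Circle) (lam : L →+ ℤ) (z : Circle) (G d : AO O L)
    (hd : ∀ a ∈ supp d, 0 ≤ lam a) (s : ℂ) :
    (sl v (lt lam) (spec z (Ft G d))).eval s =
      (sl (v.compAddMonoidHom (AddMonoidHom.inl L ℤ)) lam (spec z G)).eval s -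
      s * ((v ((0 : L), (1 : ℤ)) : Circle) : ℂ) *
        (sl (v.compAddMonoidHom (AddMonoidHom.inl L ℤ)) lam (spec z d)).eval s := by
  have hd' : ∀ a ∈ supp (-d), 0 ≤ lam a := by
    intro a ha
    apply hd
    intro h0
    apply ha
    rw [coeff_neg, Finsupp.neg_apply, h0, neg_zero]
  unfold Ft
  rw [map_add, H83.sl_add, Polynomial.eval_add, sl_il, lt_comp, sl_mon_il v lam z (-d) hd' s]
  have h1 : (sl (v.compAddMonoidHom (AddMonoidHom.inl L ℤ)) lam (spec z (-d))).eval s =
      -(sl (v.compAddMonoidHom (AddMonoidHom.inl L ℤ)) lam (spec z d)).eval s := by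
    rw [eq_neg_iff_add_eq_zero, ← Polynomial.eval_add, ← H83.sl_add, ← map_add, neg_add_cancel,
      map_zero, H83.sl_zero, Polynomial.eval_zero]
  rw [h1]
  ring

theorem sl_eval_zero (u : AddChar L Circle) (lam : L →+ ℤ) (z : Circle) (G : AO O L)
    (hG : Pos lam G) : (sl u lam (spec z G)).eval 0 = evR z (G.coeff 0) := by
  classical
  rw [H59.sl_eval, H59.spec_sum _ _ _ (by intro x; simp)]
  rw [Finsupp.sum, Finset.sum_eq_single (0 : L)]
  · rw [map_zero lam, Int.toNat_zero, pow_zero, AddChar.map_zero_eq_one]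
    simp
  · intro a ha h0
    have h1 := hG a ha h0
    rw [zero_pow (by omega), mul_zero]
  · intro hn
    rw [Finsupp.notMem_support_iff] at hn
    rw [hn, map_zero, zero_mul, zero_mul]

theorem sl_eval_one (u : AddChar L Circle) (lam : L →+ ℤ) (z : Circle) (G : AO O L) :
    (sl u lam (spec z G)).eval 1 = ev z u G := by
  rw [H59.sl_eval]
  change _ = evC u (spec z G)
  rw [evC_apply]
  refine Finsupp.sum_congr fun a _ => ?_
  rw [one_pow, mul_one]

theorem nn_of_pos' {lam : L →+ ℤ} {G : AO O L} (h : Pos lam G) : ∀ a ∈ supp G, 0 ≤ lam a := by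
  intro a ha
  by_cases h0 : a = 0
  · rw [h0, map_zero]
  · exact (h a (Finsupp.mem_support_iff.mpr ha) h0).le

theorem Ft_pos {lam : L →+ ℤ} {G d : AO O L} (hG : Pos lam G) (hd : Pos lam d) :
    Pos (lt lam) (Ft G d) := by
  intro x hx h0
  obtain ⟨a, k⟩ := x
  rcases (Ft_supp G d _).mp (Finsupp.mem_support_iff.mp hx) with ⟨h1, h2⟩ | ⟨h1, h2⟩
  · have hk : k = 0 := h1
    subst hk
    rw [lt_apply, add_zero]
    refine hG a (Finsupp.mem_support_iff.mpr h2) ?_
    rintro rfl
    exact h0 rfl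
  · have hk : k = 1 := h1
    subst hk
    rw [lt_apply]
    have : 0 ≤ lam a := by
      by_cases ha : a = 0
      · rw [ha, map_zero]
      · exact (hd a (Finsupp.mem_support_iff.mpr h2) ha).le
    omega

/-- `G - t d` is stable. -/
theorem Ft_stable {lam : L →+ ℤ} {G d : AO O L} (hG : Pos lam G) (hd : Pos lam d)
    (hG0 : G.coeff 0 ≠ 0)
    (hzf : ∀ (z : Circle) (u : AddChar L Circle) (s c : ℂ), ‖s‖ < 1 → ‖1 - c‖ < 1 →
      (sl u lam (spec z G)).eval s + (sl u lam (spec z d)).eval s * c ^ 3 ≠ 0) :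
    Stable (Ft G d) := by
  have h0 : (Ft G d).coeff 0 = G.coeff 0 := by
    have h1 := Ft_coeff G d 0 0
    rw [if_pos rfl] at h1
    exact h1
  refine ⟨by rw [h0]; exact hG0, lt lam, Ft_pos hG hd, ?_⟩
  intro z hz v s hs
  rw [h0] at hz
  rw [sl_Ft v lam z G d (nn_of_pos' hd) s]
  by_cases hs0 : s = 0
  · rw [hs0, sl_eval_zero _ _ _ _ hG, zero_mul, zero_mul, sub_zero]
    exact hz
  · set y : ℂ := -(s * ((v ((0 : L), (1 : ℤ)) : Circle) : ℂ)) with hy
    have hy0 : y ≠ 0 := neg_ne_zero.mpr (mul_ne_zero hs0 (Circle.coe_ne_zero _))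
    have hyn : ‖y‖ < 1 := by
      rw [hy, norm_neg, norm_mul, Circle.norm_coe, mul_one]
      exact hs
    have h1 := hzf z (v.compAddMonoidHom (AddMonoidHom.inl L ℤ)) s (y ^ ((1 : ℂ) / 3)) hs
      (cube_near y hy0 (Or.inl hyn))
    rw [cube_pow] at h1
    intro h2
    apply h1
    rw [← h2, hy]
    ring

theorem gpart_Ft (G d : AO O L) : gpart (AddMonoidHom.snd L ℤ) 0 (Ft G d) = il G := by
  classical
  apply AddMonoidAlgebra.ext
  apply Finsupp.ext
  rintro ⟨a, k⟩
  rw [H96.gpart_coeff, Ft_coeff, il_coeff]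
  change (if k = 0 then _ else _) = _
  by_cases hk : k = 0
  · rw [if_pos hk, if_pos hk, if_pos hk]
  · rw [if_neg hk, if_neg hk]

theorem stable_of_il {G : AO O L} (h : Stable (il G)) : Stable G := by
  obtain ⟨h0, mu, hp, hz⟩ := h
  have e0 : (il G).coeff 0 = G.coeff 0 := by
    have h1 := il_coeff G 0 0
    rw [if_pos rfl] at h1
    exact h1
  rw [e0] at h0
  refine ⟨h0, mu.comp (AddMonoidHom.inl L ℤ), ?_, ?_⟩
  · intro a ha ha0
    refine hp (a, 0) ?_ ?_
    · rw [Finsupp.mem_support_iff, il_coeff, if_pos rfl]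
      exact Finsupp.mem_support_iff.mp ha
    · intro h1
      rw [Prod.mk_eq_zero] at h1
      exact ha0 h1.1
  · intro z hz0 u s hs
    have h1 := hz z (by rw [e0]; exact hz0) (u.compAddMonoidHom (AddMonoidHom.fst L ℤ)) s hs
    rw [sl_il] at h1
    have h2 : (u.compAddMonoidHom (AddMonoidHom.fst L ℤ)).compAddMonoidHom
        (AddMonoidHom.inl L ℤ) = u := by
      ext a
      rfl
    rw [h2] at h1
    exact h1

end

section

variable {O : Type} [CommRing O] [IsDomain O] [IsPrincipalIdealRing O] [Coef O] {L : Type}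
  [AddCommGroup L] [Module.Free ℤ L] [Module.Finite ℤ L]

theorem G_stable (hFa : FaceS) {G d : AO O L} (h : Stable (Ft G d)) : Stable G := by
  have hn : Nn (AddMonoidHom.snd L ℤ) (Ft G d) := by
    intro x hx
    rcases (Ft_supp G d x).mp (Finsupp.mem_support_iff.mp hx) with ⟨h1, _⟩ | ⟨h1, _⟩
    · change 0 ≤ x.2
      rw [h1]
    · change 0 ≤ x.2
      rw [h1]
      norm_num
  have h1 := (hFa O (L × ℤ) (Ft G d) (AddMonoidHom.snd L ℤ) h hn).1
  rw [gpart_Ft] at h1
  exact stable_of_il h1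

/-- `G - t d` is irreducible. -/
theorem Ft_irr {G d : AO O L} (hG : G ≠ 0) (hd : d ≠ 0)
    (h : ∀ c : AO O L, Irreducible c → c ∣ G → c ∣ d → False) : Irreducible (Ft G d) := by
  have h1 : Irreducible (K.H97.cur O L (Ft G d)) := by
    have e : K.H97.cur O L (Ft G d) =
        LaurentPolynomial.C G + LaurentPolynomial.T 1 * LaurentPolynomial.C (-d) := by
      unfold Ft il
      rw [map_add, map_mul, K.H97.cur_inl, K.H97.cur_inl]
      congr 2
      unfold mon
      rw [K.H97.cur_single]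
      rfl
    rw [e]
    refine K.H97.irr_lin G (-d) hG (neg_ne_zero.mpr hd) ?_
    intro c hc h1 h2
    exact h c hc h1 ((dvd_neg).mp h2)
  exact (MulEquiv.irreducible_iff (K.H97.cur O L)).mp h1

/-- `G - t d` is not unitary unless `G = d`. -/
theorem Ft_unitary (hU : UnitAS) (hEv : EvRS) (hSh : SharpS) (hDe : DensS) {lam : L →+ ℤ}
    {G d : AO O L} (hG0 : G.coeff 0 ≠ 0) (hd0 : d.coeff 0 ≠ 0)
    (hzf : ∀ (z : Circle) (u : AddChar L Circle) (s c : ℂ), ‖s‖ < 1 → ‖1 - c‖ < 1 →
      (sl u lam (spec z G)).eval s + (sl u lam (spec z d)).eval s * c ^ 3 ≠ 0)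
    (hun : Unitary (Ft G d)) : G = d := by
  classical
  obtain ⟨v, hv⟩ := hun
  obtain ⟨⟨b, k⟩, c, hc, hvs⟩ := (hU O (L × ℤ) (v : AO O (L × ℤ))).1 v.isUnit
  have hco : ∀ (a : L) (n : ℤ), (Ft G d).coeff (a, n) =
      c * rsh ((Ft G d).coeff (b - a, k - n)) := by
    intro a n
    have h1 : (Ft G d).coeff (a, n) = (sharp (Ft G d) * (v : AO O (L × ℤ))).coeff (a, n) := by
      rw [hv]
    rw [h1, hvs, coeff_mul_single_apply, sharp_coeff', mul_comm]
    congr 3
    ext
    · simp [sub_eq_add_neg]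
    · simp [sub_eq_add_neg]
  have hrsh : ∀ q : RO O, rsh q ≠ 0 → q ≠ 0 := fun q hq h0 => hq (by rw [h0, map_zero])
  have hk : k = 1 := by
    have h1 := hco 0 0
    rw [Ft_coeff, if_pos rfl] at h1
    have h2 : (Ft G d).coeff (b - 0, k - 0) ≠ 0 := by
      intro h3
      rw [h3, map_zero (rsh : RO O →+* RO O), mul_zero] at h1
      exact hG0 h1
    have h3 := hco 0 1
    rw [Ft_coeff, if_neg one_ne_zero, if_pos rfl] at h3
    have h4 : (Ft G d).coeff (b - 0, k - 1) ≠ 0 := by
      intro h5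
      rw [h5, map_zero (rsh : RO O →+* RO O), mul_zero] at h3
      exact hd0 (neg_eq_zero.mp h3)
    rcases (Ft_supp G d _).mp h2 with ⟨h5, _⟩ | ⟨h5, _⟩
    · have h6 : k - 0 = 0 := h5
      rcases (Ft_supp G d _).mp h4 with ⟨h7, _⟩ | ⟨h7, _⟩
      · have h8 : k - 1 = 0 := h7
        omega
      · have h8 : k - 1 = 1 := h7
        omega
    · have h6 : k - 0 = 1 := h5
      omega
  have hGd : G = single b (-c) * sharp d := by
    apply AddMonoidAlgebra.ext
    apply Finsupp.ext
    intro a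
    have h1 := hco a 0
    rw [Ft_coeff, if_pos rfl, hk, Ft_coeff, if_neg (by norm_num), if_pos (by norm_num)] at h1
    rw [h1, coeff_single_mul_apply, sharp_coeff', map_neg]
    have h2 : -(-b + a) = b - a := by abel
    rw [h2]
    ring
  have hnorm : ∀ (z : Circle) (u : AddChar L Circle), ‖ev z u G‖ = ‖ev z u d‖ := by
    intro z u
    rw [hGd, map_mul, norm_mul, (hSh O L d).1 z u, RCLike.norm_conj]
    have h1 : ev z u (single b (-c) : AO O L) = evR z (-c) * ((u b : Circle) : ℂ) :=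
      H59.ev_single z u b (-c)
    rw [h1, norm_mul, Circle.norm_coe, mul_one, (hEv O).2.1 z (-c) hc.neg, one_mul]
  have hev : ∀ (z : Circle) (u : AddChar L Circle), ev z u G = ev z u d := by
    intro z u
    by_cases hd1 : ev z u d = 0
    · have h1 := hnorm z u
      rw [hd1, norm_zero, norm_eq_zero] at h1
      rw [h1, hd1]
    · by_contra hne
      set w : ℂ := -(ev z u G) / ev z u d with hw
      have hw1 : ‖w‖ = 1 := by
        rw [hw, norm_div, norm_neg, hnorm z u]
        exact div_self (norm_ne_zero_iff.mpr hd1)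
      have hwm : w ≠ -1 := by
        intro h1
        apply hne
        rw [hw, div_eq_iff hd1] at h1
        linear_combination -h1
      have hw0 : w ≠ 0 := by
        intro h1
        rw [h1, norm_zero] at hw1
        exact zero_ne_one hw1
      have hslit : w ∈ Complex.slitPlane := by
        rw [Complex.mem_slitPlane_iff_arg]
        refine ⟨?_, hw0⟩
        intro h1
        apply hwm
        rw [← Complex.norm_mul_exp_arg_mul_I w, hw1, h1]
        simp
      set pg : Polynomial ℂ := sl u lam (spec z G) with hpg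
      set pd : Polynomial ℂ := sl u lam (spec z d) with hpd
      have hpg1 : pg.eval 1 = ev z u G := sl_eval_one u lam z G
      have hpd1 : pd.eval 1 = ev z u d := sl_eval_one u lam z d
      have hcd : Continuous fun r : ℝ => pd.eval (r : ℂ) :=
        pd.continuous.comp Complex.continuous_ofReal
      have hcg : Continuous fun r : ℝ => pg.eval (r : ℂ) :=
        pg.continuous.comp Complex.continuous_ofReal
      have hc1 : ContinuousAt (fun r : ℝ => -(pg.eval (r : ℂ)) / pd.eval (r : ℂ)) 1 := by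
        refine ContinuousAt.div hcg.neg.continuousAt hcd.continuousAt ?_
        rw [Complex.ofReal_one, hpd1]
        exact hd1
      have hval : -(pg.eval ((1 : ℝ) : ℂ)) / pd.eval ((1 : ℝ) : ℂ) = w := by
        rw [Complex.ofReal_one, hpd1, hpg1]
      have hc2 : ContinuousAt
          (fun r : ℝ => ‖1 - (-(pg.eval (r : ℂ)) / pd.eval (r : ℂ)) ^ ((1 : ℂ) / 3)‖) 1 := by
        refine (ContinuousAt.sub continuousAt_const ?_).norm
        refine ContinuousAt.cpow hc1 continuousAt_const ?_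
        rw [hval]
        exact hslit
      have h1 : ‖1 - (-(pg.eval ((1 : ℝ) : ℂ)) / pd.eval ((1 : ℝ) : ℂ)) ^ ((1 : ℂ) / 3)‖ < 1 := by
        rw [hval]
        exact cube_near w hw0 (Or.inr ⟨hw1, hwm⟩)
      have e1 := hc2.eventually_lt (continuousAt_const (y := (1 : ℝ))) h1
      have e2 : ∀ᶠ r : ℝ in nhds 1, pd.eval (r : ℂ) ≠ 0 := by
        refine hcd.continuousAt.eventually_ne ?_
        rw [Complex.ofReal_one, hpd1]
        exact hd1
      have e3 : ∀ᶠ r : ℝ in nhds 1, 0 < r := lt_mem_nhds zero_lt_one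
      have e4 : ∀ᶠ r : ℝ in nhdsWithin 1 (Set.Iio 1), r < 1 := self_mem_nhdsWithin
      obtain ⟨r, ⟨⟨hr1, hr2⟩, hr3⟩, hr4⟩ :=
        ((((e1.and e2).and e3).filter_mono nhdsWithin_le_nhds).and e4).exists
      have hrn : ‖(r : ℂ)‖ < 1 := by
        rw [Complex.norm_real, Real.norm_eq_abs, abs_of_pos hr3]
        exact hr4
      refine hzf z u (r : ℂ) ((-(pg.eval (r : ℂ)) / pd.eval (r : ℂ)) ^ ((1 : ℂ) / 3)) hrn hr1 ?_
      rw [cube_pow, ← hpg, ← hpd, mul_div_cancel₀ _ hr2]
      ring
  have h1 : G - d = 0 := by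
    refine (hDe O L).2 (G - d) ?_
    have h2 : {z : Circle | ¬ ∀ u : AddChar L Circle, ev z u (G - d) = 0} = ∅ := by
      ext z
      simp only [Set.mem_ofPred_eq, Set.mem_empty_iff_false, iff_false, not_not]
      intro u
      rw [map_sub, hev z u, sub_self]
    rw [h2]
    exact Set.finite_empty
  exact sub_eq_zero.mp h1

end

end Pool.Agent.B5.H02
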