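import Pool.Agent.Lib.MP_b5021c_nt.E.H02.DtiD

/-!
# Board b5, row AM_DTI: `G` and `d` are coprime
-/

set_option linter.unusedSectionVars false

namespace Pool.Agent.B5.H02

open scoped LaurentPolynomial
open AddMonoidAlgebra

section

variable {O : Type} [CommRing O] {L : Type} [AddCommGroup L]

theorem coeff_zero_mul (lam : L →+ ℤ) (g H : AO O L) (hg : Pos lam g)
    (hH : ∀ a ∈ supp H, 0 ≤ lam a) : (g * H).coeff 0 = g.coeff 0 * H.coeff 0 := by
  classical
  let f1 : AO O L →+ RO O :=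
    { toFun := fun H => (g * H).coeff 0
      map_zero' := by rw [mul_zero]; rfl
      map_add' := fun p q => by rw [mul_add, coeff_add, Finsupp.add_apply] }
  let f2 : AO O L →+ RO O :=
    { toFun := fun H => g.coeff 0 * H.coeff 0
      map_zero' := by
        change g.coeff 0 * 0 = 0
        rw [mul_zero]
      map_add' := fun p q => by rw [coeff_add, Finsupp.add_apply, mul_add] }
  refine H83.eq_of_single f1 f2 H (fun a ha => ?_)
  change (g * single a (H.coeff a)).coeff 0 = g.coeff 0 * (single a (H.coeff a) : AO O L).coeff 0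
  rw [coeff_mul_single_apply, coeff_single, Finsupp.single_apply]
  by_cases h0 : a = 0
  · rw [if_pos h0, h0, neg_zero, add_zero]
  · rw [if_neg h0, mul_zero]
    have h1 : g.coeff (0 + -a) = 0 := by
      by_contra hne
      have h2 := hg _ (Finsupp.mem_support_iff.mpr hne) (by
        rw [zero_add]
        exact neg_ne_zero.mpr h0)
      rw [zero_add, map_neg] at h2
      have h3 := hH a ha
      omega
    rw [h1, zero_mul]

theorem binom' (g : AO O L) (b : L) (hb : b ≠ 0) (hs : supp g = {0, b}) :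
    g = cst (g.coeff 0) + single b (g.coeff b) := by
  classical
  apply AddMonoidAlgebra.ext
  apply Finsupp.ext
  intro a
  rw [cst, coeff_add, Finsupp.add_apply, coeff_single, coeff_single, Finsupp.single_apply,
    Finsupp.single_apply]
  by_cases h0 : a = 0
  · subst h0
    rw [if_pos rfl, if_neg hb, add_zero]
  · by_cases h1 : a = b
    · subst h1
      rw [if_neg (Ne.symm h0), if_pos rfl, zero_add]
    · rw [if_neg (Ne.symm h0), if_neg (Ne.symm h1), add_zero]
      by_contra hne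
      have : a ∈ supp g := hne
      rw [hs] at this
      rcases this with h2 | h2
      · exact h0 h2
      · exact h1 h2

end

section

variable {O : Type} [CommRing O] [IsDomain O] [IsPrincipalIdealRing O] [Coef O] {P : Type}
  [Fintype P] [DecidableEq P] {L : Type} [AddCommGroup L] [Module.Free ℤ L] [Module.Finite ℤ L]

variable {phi : L →+ (P → ℤ)} {D : AO O L} {eta : L → (RO O)ˣ} {Z : Fin 4 → L}
  {dl : Fin 4 → Fin 4 → L →+ ℤ} {p : P}

theorem fr_zero (phi : L →+ (P → ℤ)) (Z : Fin 4 → L) (dl : Fin 4 → Fin 4 → L →+ ℤ) :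
    Fr phi Z dl 0 :=
  ⟨fun _ _ => Or.inl (by rw [map_zero]; rfl), fun _ _ => map_zero _⟩

theorem Del_zero (phi : L →+ (P → ℤ)) (D : AO O L) (eta : L → (RO O)ˣ) (Z : Fin 4 → L)
    (dl : Fin 4 → Fin 4 → L →+ ℤ) :
    (Del phi D eta Z dl).coeff 0 = -((eta (Z 1) : RO O) * D.coeff (Z 1)) := by
  rw [Del_coeff _ _ _ _ _ _ (fr_zero phi Z dl), add_zero]

theorem Gz_zero (phi : L →+ (P → ℤ)) (D : AO O L) (eta : L → (RO O)ˣ) (Z : Fin 4 → L)
    (dl : Fin 4 → Fin 4 → L →+ ℤ) (p : P) :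
    (Gz phi D eta Z dl p).coeff 0 = D.coeff 0 + (eta (Z 1) : RO O) * D.coeff (Z 1) := by
  rw [Gz_coeff _ _ _ _ _ _ _ ⟨by rw [map_zero]; rfl, fun _ _ => map_zero _⟩, Del_zero]
  ring

theorem Dat.del_bin (h : Dat phi D eta Z dl p) {u : L} (hu : (Del phi D eta Z dl).coeff u ≠ 0) :
    Bin phi u := by
  intro q
  obtain ⟨h1, h2⟩ := Del_supp hu
  rcases h1.1 1 q with h3 | h3
  · exact Or.inl h3
  · have h4 := h.bin _ h2 q
    rw [map_add, Pi.add_apply, h3, zero_add] at h4
    exact h4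

theorem Dat.gz_bin (h : Dat phi D eta Z dl p) {a : L} (ha : (Gz phi D eta Z dl p).coeff a ≠ 0) :
    Bin phi a := by
  obtain ⟨-, h1 | h1⟩ := Gz_supp ha
  · exact h.bin a h1
  · exact h.del_bin h1

/-- `G` and `d` are coprime. -/
theorem Dat.coprime (hB4 : B4S) (hMin : MinS) (hC0 : Coeff0S) (hWW : WWfS) (hTh : ThinS)
    (hC3 : C3S) (hC4 : C4S) (hPr : PrimS) (hE1 : E1S) (hMV : MVS) (hM1 : M1S) (hA1 : A1S)
    (hEv : EvRS) (h : Dat phi D eta Z dl p) (hD : DD phi D) {lam : L →+ ℤ}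
    (hl : Lam phi D Z dl lam) {θ : ℝ} (hP : ClassP θ (D.coeff 0))
    (hz : ∀ z : Circle, evR z (D.coeff 0) ≠ 0)
    (hle : ∀ z : Circle, ‖evR z (D.coeff (Z 1))‖ ≤ ‖evR z (D.coeff 0)‖)
    (hne : ∃ z : Circle, ‖evR z (D.coeff (Z 1))‖ ≠ ‖evR z (D.coeff 0)‖)
    (hZ1 : D.coeff (Z 1) ≠ 0) (hZ0 : Z 0 ∈ supp D) (hst : Stable (Gz phi D eta Z dl p)) :
    ∀ f : AO O L, Irreducible f → f ∣ Gz phi D eta Z dl p → f ∣ Del phi D eta Z dl → False := by
  classical
  rintro f hf ⟨k1, hk1⟩ ⟨k2, hk2⟩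
  obtain ⟨b, hs1, hs2, hpos⟩ := hB4 O L _ f k1 hst hk1
  have hmm : (mon b * mon (-b) : AO O L) = 1 := by
    rw [H96.mon_mul_mon, add_neg_cancel, H96.mon_zero]
  set g : AO O L := mon b * f with hg
  set H1 : AO O L := mon (-b) * k1 with hH1
  set H2 : AO O L := mon (-b) * k2 with hH2
  have hgf : Irreducible g := (irreducible_isUnit_mul (H96.mon_isUnit b)).mpr hf
  have e1 : Gz phi D eta Z dl p = g * H1 := by
    rw [hk1, hg, hH1]
    linear_combination (-(f * k1)) * hmm
  have e2 : Del phi D eta Z dl = g * H2 := by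
    rw [hk2, hg, hH2]
    linear_combination (-(f * k2)) * hmm
  have hg0 : g.coeff 0 ≠ 0 := hs1.1
  have hH10 : H1.coeff 0 ≠ 0 := hs2.1
  obtain ⟨hpg, hpH⟩ := (hpos lam).2 (hl.gz_pos h)
  have c1 : (Gz phi D eta Z dl p).coeff 0 = g.coeff 0 * H1.coeff 0 := by
    rw [e1]
    exact (hC0 O L g H1 lam hpg hpH).1
  have hdel0 : (Del phi D eta Z dl).coeff 0 ≠ 0 := by
    rw [Del_zero]
    exact neg_ne_zero.mpr (mul_ne_zero (eta (Z 1)).ne_zero hZ1)
  have hH2ne : H2 ≠ 0 := by
    intro h0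
    rw [e2, h0, mul_zero] at hdel0
    exact hdel0 rfl
  have hnH2 : ∀ a ∈ supp H2, 0 ≤ lam a := by
    refine hMin O L H2 g hH2ne hg0 lam 0 ?_
    intro a ha
    rw [mul_comm, ← e2] at ha
    exact nn_of_pos (hl.del_pos h) a ha
  have c2 : (Del phi D eta Z dl).coeff 0 = g.coeff 0 * H2.coeff 0 := by
    rw [e2]
    exact coeff_zero_mul lam g H2 hpg hnH2
  have cQ : D.coeff 0 = g.coeff 0 * (H1.coeff 0 + H2.coeff 0) := by
    rw [mul_add, ← c1, ← c2, Gz_zero, Del_zero]
    ring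
  have cA : (eta (Z 1) : RO O) * D.coeff (Z 1) = -(g.coeff 0 * H2.coeff 0) := by
    rw [← c2, Del_zero, neg_neg]
  have hzg : ∀ z : Circle, evR z (g.coeff 0) ≠ 0 := by
    intro z h0
    apply hz z
    rw [cQ, map_mul, h0, zero_mul]
  have hzq : ∀ z : Circle, evR z (H1.coeff 0 + H2.coeff 0) ≠ 0 := by
    intro z h0
    apply hz z
    rw [cQ, map_mul, h0, mul_zero]
  rw [cQ] at hP
  rcases (hE1 O).2 θ _ _ hP with ⟨_, h2⟩ | ⟨h1, _⟩
  · -- the common factor is of class `P`
    obtain ⟨hq0, hqM⟩ := (hMV O).1 1 _ h2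
    have hqu : IsUnit (H1.coeff 0 + H2.coeff 0) := hM1 O _ hq0 hqM hzq
    have hnA : ∀ z : Circle, ‖evR z (D.coeff (Z 1))‖ =
        ‖evR z (D.coeff 0)‖ * ‖evR z (H2.coeff 0)‖ := by
      intro z
      have h3 := congrArg (fun x => ‖evR z x‖) cA
      simp only [map_mul, map_neg, norm_neg, norm_mul] at h3
      rw [(hEv O).2.1 z _ (eta (Z 1)).isUnit, one_mul] at h3
      have h4 := congrArg (fun x => ‖evR z x‖) cQ
      simp only [map_mul, norm_mul] at h4
      rw [(hEv O).2.1 z _ hqu, mul_one] at h4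
      rw [h3, h4]
    have hH2n : ∀ z : Circle, ‖evR z (H2.coeff 0)‖ ≤ 1 := by
      intro z
      have h3 := hle z
      rw [hnA z] at h3
      have h4 : 0 < ‖evR z (D.coeff 0)‖ := norm_pos_iff.mpr (hz z)
      by_contra hcon
      push Not at hcon
      nlinarith
    have hH20 : H2.coeff 0 ≠ 0 := by
      intro h0
      rw [h0, mul_zero] at c2
      exact hdel0 c2
    have hu := hA1 O (H2.coeff 0) hH20 hH2n
    obtain ⟨z, hz1⟩ := hne
    apply hz1
    rw [hnA z, (hEv O).2.1 z _ hu, mul_one]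
  · -- the common factor is a unit times `1 - e w^b`
    obtain ⟨-, hgM⟩ := (hMV O).1 1 _ h1
    have hgu : IsUnit (g.coeff 0) := hM1 O _ hg0 hgM hzg
    have hwd : Wdep g := by
      by_contra hn
      apply hgf.not_isUnit
      have h3 : ∀ a, a ≠ 0 → g.coeff a = 0 := by
        intro a ha
        by_contra hne
        exact hn ⟨a, hne, 0, hg0, ha⟩
      have h4 : g = cst (g.coeff 0) := by
        apply AddMonoidAlgebra.ext
        apply Finsupp.ext
        intro a
        rw [cst, coeff_single, Finsupp.single_apply]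
        by_cases h0 : (0 : L) = a
        · rw [if_pos h0, ← h0]
        · rw [if_neg h0]
          exact h3 a (Ne.symm h0)
      rw [h4]
      exact H96.cst_isUnit hgu
    have hww : ∀ a ∈ supp g, WW phi ∅ Finset.univ a := by
      refine (hWW O P L phi ∅ Finset.univ g H1 ?_ hg0 hH10).1
      intro a ha
      rw [← e1] at ha
      exact ⟨fun j _ => h.gz_bin ha j, Or.inl (fun i hi => absurd hi (Finset.notMem_empty _)),
        fun j _ hj => absurd (Finset.mem_univ j) hj⟩
    have hthin : Thin (supp g) := hTh P L phi ∅ Finset.univ (supp g) h.inj hww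
    obtain ⟨-, b', hb0, hbu, hsg⟩ := hC4 O L g hgf hs1 hwd hthin hgM
    have hfull : FullAt lam g := by
      rw [binom' g b' hb0 hsg]
      refine H96.edge_full hEv hb0 hgu hbu ?_
      refine hpg b' (Finsupp.mem_support_iff.mpr ?_) hb0
      exact hbu.ne_zero
    have hNp : Nn (co phi p) D := by
      intro a ha
      have h3 : phi a p = 0 ∨ phi a p = 1 := h.bin a (Finsupp.mem_support_iff.mp ha) p
      change 0 ≤ phi a p
      omega
    have h3 := (hC3 O L D g (co phi p) lam hD.irr hD.st hNp hfull ((hPr O L g g).2.1 hgf hwd) hwd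
      ⟨H1 + H2 * Pr3 eta Z, by rw [h.face, e1, e2]; ring⟩).2 (Z 0) hZ0
    have h4 : phi (Z 0) p = 0 := h3
    rw [h.p0] at h4
    exact one_ne_zero h4

end

end Pool.Agent.B5.H02
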